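import Mathlib

/-!
# Nondeterministic circuits and prediction of languages
-/

set_option autoImplicit false

namespace Pool.Agent.BookAv

open Filter

/-- A nondeterministic circuit of size `s` with `n` inputs, in clausal form: a list of `s` clauses
(of any width) on `n` input variables and `s` auxiliary variables; `C i v b = true` means that the
literal saying that the variable `v` has the value `b` occurs in the clause `i`. -/
def NCirc (n s : ℕ) : Type := Fin s → Fin n ⊕ Fin s → Bool → Bool

/-- `C` accepts the input `x` if for some values `y` of the auxiliary variables every clause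
contains a true literal. -/
def NCirc.Acc {n s : ℕ} (C : NCirc n s) (x : Fin n → Bool) : Prop :=
  ∃ y : Fin s → Bool, ∀ i, ∃ v, C i v (Sum.elim x y v) = true

/-- The number of words `x` of length `n` for which `C` gives the right answer to the question
whether `x` is in `L`. -/
noncomputable def agree (L : Set (List Bool)) {n s : ℕ} (C : NCirc n s) : ℕ :=
  Nat.card {x : Fin n → Bool // (List.ofFn x ∈ L ↔ C.Acc x)}

/-- The size `2 ^ (log n) ^ k`, where `log` is the integer part of the binary logarithm. -/
def sz (k n : ℕ) : ℕ := 2 ^ Nat.log 2 n ^ k

/-- For infinitely many `n` some nondeterministic circuit of size `2 ^ (log n) ^ k` gives the right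
answer on more than the fraction `1/2 + 2 ^ (- (log n) ^ k)` of the words of length `n`. -/
def Predictable (k : ℕ) (L : Set (List Bool)) : Prop :=
  ∃ᶠ n in atTop, ∃ C : NCirc n (sz k n), ((1 : ℝ) / 2 + 1 / sz k n) * 2 ^ n < agree L C

end Pool.Agent.BookAv
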