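import Pool.Agent.BookAv.Defs

/-!
# Coding of circuits
-/

set_option autoImplicit false

namespace Pool.Agent.BookAv

/-- the number of a variable -/
private def idx {n s : ℕ} : Fin n ⊕ Fin s → ℕ :=
  Sum.elim (fun u => (u : ℕ)) (fun j => n + (j : ℕ))

private theorem idx_inl {n s : ℕ} (u : Fin n) : idx (Sum.inl u : Fin n ⊕ Fin s) = (u : ℕ) := rfl

private theorem idx_inr {n s : ℕ} (j : Fin s) : idx (Sum.inr j : Fin n ⊕ Fin s) = n + (j : ℕ) :=
  rfl

private theorem idx_lt {n s : ℕ} (v : Fin n ⊕ Fin s) : idx v < n + s := by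
  rcases v with u | j
  · rw [idx_inl]
    omega
  · rw [idx_inr]
    omega

private theorem idx_inj {n s : ℕ} {v v' : Fin n ⊕ Fin s} (h : idx v = idx v') : v = v' := by
  rcases v with u | j <;> rcases v' with u' | j'
  · rw [idx_inl, idx_inl] at h
    rw [Fin.ext h]
  · rw [idx_inl, idx_inr] at h
    have := u.2
    omega
  · rw [idx_inl, idx_inr] at h
    have := u'.2
    omega
  · rw [idx_inr, idx_inr] at h
    rw [Fin.ext (Nat.add_left_cancel h)]

private theorem exists_idx {n s u : ℕ} (hu : u < n + s) : ∃ v : Fin n ⊕ Fin s, idx v = u := by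
  by_cases h : u < n
  · exact ⟨Sum.inl ⟨u, h⟩, rfl⟩
  · refine ⟨Sum.inr ⟨u - n, by omega⟩, ?_⟩
    rw [idx_inr]
    show n + (u - n) = u
    omega

private theorem digits_unique {D i i' u u' : ℕ} (hu : u < D) (hu' : u' < D)
    (h : i * D + u = i' * D + u') : i = i' ∧ u = u' := by
  have hD : 0 < D := by omega
  have h1 : ∀ j r : ℕ, r < D → (j * D + r) / D = j := by
    intro j r hr
    rw [Nat.add_comm, Nat.add_mul_div_right _ _ hD, Nat.div_eq_of_lt hr, Nat.zero_add]
  have h2 : i = i' := by rw [← h1 i u hu, ← h1 i' u' hu', h]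
  subst h2
  exact ⟨rfl, Nat.add_left_cancel h⟩

private theorem place_lt {n s i u b : ℕ} (hi : i < s) (hu : u < n + s) (hb : b < 2) :
    (i * (n + s) + u) * 2 + b < 2 * s * (n + s) := by
  have h1 : (i + 1) * (n + s) ≤ s * (n + s) := Nat.mul_le_mul_right _ hi
  have h2 : (i + 1) * (n + s) = i * (n + s) + (n + s) := by ring
  have h3 : 2 * s * (n + s) = 2 * (s * (n + s)) := by ring
  omega

private theorem phi_iff {n s ℓ : ℕ} (hℓ : ℓ ≤ n) {A : ℕ → Prop} {C : NCirc n s} {y : Fin n → Bool}
    (hC : ∀ (i : Fin s) v b, (C i v b = true ↔ A ((i * (n + s) + idx v) * 2 + b.toNat)))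
    (hy : ∀ u : Fin n, (y u = true ↔ A (2 * s * (n + s) + u))) (v : ℕ) (W : ℕ → Prop)
    (w : Fin s → Bool) (hw : ∀ j : Fin s, (w j = true ↔ W j)) :
    phi n s ℓ A v W ↔ ∀ i, ∃ v', C i v' (Sum.elim (mix ℓ v y) w v') = true := by
  have hval : ∀ v' : Fin n ⊕ Fin s,
      (Val n s ℓ A v W (idx v') ↔ Sum.elim (mix ℓ v y) w v' = true) := by
    rintro (u | j)
    · rw [idx_inl, Sum.elim_inl]
      unfold Val mix
      have hu := u.2
      by_cases h : (u : ℕ) < ℓ
      · rw [if_pos h]
        constructor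
        · rintro (h1 | h1 | h1)
          · exact h1.2
          · omega
          · omega
        · exact fun h1 => Or.inl ⟨h, h1⟩
      · rw [if_neg h, hy]
        constructor
        · rintro (h1 | h1 | h1)
          · exact absurd h1.1 h
          · exact h1.2.2
          · omega
        · exact fun h1 => Or.inr (Or.inl ⟨not_lt.1 h, hu, h1⟩)
    · rw [idx_inr, Sum.elim_inr, hw]
      unfold Val
      constructor
      · rintro (h1 | h1 | h1)
        · omega
        · omega
        · rw [Nat.add_sub_cancel_left] at h1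
          exact h1.2.2
      · intro h1
        refine Or.inr (Or.inr ⟨by omega, by omega, ?_⟩)
        rwa [Nat.add_sub_cancel_left]
  have hlit : ∀ (i : Fin s) (v' : Fin n ⊕ Fin s),
      ((Val n s ℓ A v W (idx v') ∧ A ((i * (n + s) + idx v') * 2 + 1)) ∨
        (¬ Val n s ℓ A v W (idx v') ∧ A ((i * (n + s) + idx v') * 2))) ↔
      C i v' (Sum.elim (mix ℓ v y) w v') = true := by
    intro i v'
    rw [hval v']
    have h1 := hC i v' true
    have h0 := hC i v' false
    simp only [Bool.toNat_true, Bool.toNat_false, Nat.add_zero] at h1 h0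
    cases h : Sum.elim (mix ℓ v y) w v'
    · rw [h0]
      simp
    · rw [h1]
      simp
  unfold phi
  constructor
  · intro h i
    obtain ⟨u, hu, hu2⟩ := h i i.2
    obtain ⟨v', rfl⟩ := exists_idx hu
    exact ⟨v', (hlit i v').1 hu2⟩
  · intro h i hi
    obtain ⟨v', hv'⟩ := h ⟨i, hi⟩
    exact ⟨idx v', idx_lt v', (hlit ⟨i, hi⟩ v').2 hv'⟩

private theorem cnt_mono {m : ℕ} {P Q : ℕ → Prop} (h : ∀ v < m, P v → Q v) :
    cnt m P ≤ cnt m Q := by
  classical
  unfold cnt
  refine Finset.sum_le_sum fun v hv => ?_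
  have h1 := h v (Finset.mem_range.1 hv)
  by_cases hP : P v
  · rw [if_pos hP, if_pos (h1 hP)]
  · rw [if_neg hP]
    exact Nat.zero_le _

theorem sbad_iff (n s ℓ m : ℕ) (hℓ : ℓ ≤ n) (T : ℕ → Prop) :
    SBad n s ℓ m T ↔ ∃ A : ℕ → Prop, ∀ W : ℕ → Prop, beta n s ℓ m T A W := by
  classical
  constructor
  · rintro ⟨C, y, h⟩
    have hwit : ∀ v : ℕ, ∃ w : Fin s → Bool, C.Acc (mix ℓ v y) →
        ∀ i, ∃ v', C i v' (Sum.elim (mix ℓ v y) w v') = true := by
      intro v
      by_cases hA : C.Acc (mix ℓ v y)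
      · obtain ⟨w, hw⟩ := hA
        exact ⟨w, fun _ => hw⟩
      · exact ⟨fun _ => false, fun h' => absurd h' hA⟩
    choose w hw using hwit
    set A : ℕ → Prop := fun p =>
      (∃ (i : Fin s) (v : Fin n ⊕ Fin s) (b : Bool),
        p = (i * (n + s) + idx v) * 2 + b.toNat ∧ C i v b = true) ∨
      (∃ u : Fin n, p = 2 * s * (n + s) + u ∧ y u = true) ∨
      (∃ v < m, p = 2 * s * (n + s) + n + v ∧ (T v ↔ C.Acc (mix ℓ v y))) ∨
      (∃ (v : ℕ) (j : Fin s), p = 2 * s * (n + s) + n + m + (v * s + j) ∧ w v j = true)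
      with hA
    have hb2 : ∀ b : Bool, b.toNat < 2 := Bool.toNat_lt
    have hC : ∀ (i : Fin s) v b, (C i v b = true ↔ A ((i * (n + s) + idx v) * 2 + b.toNat)) := by
      intro i v b
      have hlt := place_lt (n := n) i.2 (idx_lt v) (hb2 b)
      constructor
      · exact fun h1 => Or.inl ⟨i, v, b, rfl, h1⟩
      · rintro (⟨i', v', b', h1, h2⟩ | ⟨u, h1, h2⟩ | ⟨v', _, h1, h2⟩ | ⟨v', j, h1, h2⟩)
        · have e1 := hb2 b
          have e2 := hb2 b'
          have e3 : b.toNat = b'.toNat := by omega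
          have e4 : (i : ℕ) * (n + s) + idx v = i' * (n + s) + idx v' := by omega
          obtain ⟨e5, e6⟩ := digits_unique (idx_lt v) (idx_lt v') e4
          have e7 : b = b' := by
            cases b <;> cases b' <;> simp_all
          rw [Fin.ext e5, idx_inj e6, e7]
          exact h2
        · omega
        · omega
        · omega
    have hy : ∀ u : Fin n, (y u = true ↔ A (2 * s * (n + s) + u)) := by
      intro u
      have hu := u.2
      constructor
      · exact fun h1 => Or.inr (Or.inl ⟨u, rfl, h1⟩)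
      · rintro (⟨i', v', b', h1, h2⟩ | ⟨u', h1, h2⟩ | ⟨v', _, h1, h2⟩ | ⟨v', j, h1, h2⟩)
        · have := place_lt (n := n) i'.2 (idx_lt v') (hb2 b')
          omega
        · have : u = u' := Fin.ext (Nat.add_left_cancel h1)
          rw [this]
          exact h2
        · omega
        · omega
    have hJ : ∀ v < m, (A (2 * s * (n + s) + n + v) ↔ (T v ↔ C.Acc (mix ℓ v y))) := by
      intro v hv
      constructor
      · rintro (⟨i', v', b', h1, h2⟩ | ⟨u', h1, h2⟩ | ⟨v', _, h1, h2⟩ | ⟨v', j, h1, h2⟩)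
        · have := place_lt (n := n) i'.2 (idx_lt v') (hb2 b')
          omega
        · have := u'.2
          omega
        · have : v = v' := Nat.add_left_cancel h1
          rw [this]
          exact h2
        · omega
      · exact fun h1 => Or.inr (Or.inr (Or.inl ⟨v, hv, rfl, h1⟩))
    have hwA : ∀ (v : ℕ) (j : Fin s),
        (w v j = true ↔ A (2 * s * (n + s) + n + m + (v * s + j))) := by
      intro v j
      constructor
      · exact fun h1 => Or.inr (Or.inr (Or.inr ⟨v, j, rfl, h1⟩))
      · rintro (⟨i', v', b', h1, h2⟩ | ⟨u', h1, h2⟩ | ⟨v', _, h1, h2⟩ | ⟨v', j', h1, h2⟩)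
        · have := place_lt (n := n) i'.2 (idx_lt v') (hb2 b')
          omega
        · have := u'.2
          omega
        · omega
        · obtain ⟨e1, e2⟩ := digits_unique j.2 j'.2 (Nat.add_left_cancel h1)
          rw [e1, Fin.ext e2]
          exact h2
    refine ⟨A, fun W => ⟨?_, ?_⟩⟩
    · refine lt_of_lt_of_le h (Nat.mul_le_mul_left _ (cnt_mono ?_))
      exact fun v hv hv2 => (hJ v hv).2 hv2
    · intro v hv hvJ
      have hTv := (hJ v hv).1 hvJ
      constructor
      · intro hT
        rw [phi_iff hℓ hC hy v _ (w v) (hwA v)]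
        exact hw v (hTv.1 hT)
      · intro hT hphi
        apply hT
        apply hTv.2
        refine ⟨fun j => decide (W j), ?_⟩
        exact (phi_iff hℓ hC hy v W (fun j => decide (W j)) (fun j => decide_eq_true_iff)).1 hphi
  · rintro ⟨A, hA⟩
    set C : NCirc n s := fun i v b => decide (A ((i * (n + s) + idx v) * 2 + b.toNat)) with hCdef
    set y : Fin n → Bool := fun u => decide (A (2 * s * (n + s) + u)) with hydef
    have hC : ∀ (i : Fin s) v b, (C i v b = true ↔ A ((i * (n + s) + idx v) * 2 + b.toNat)) :=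
      fun i v b => decide_eq_true_iff
    have hy : ∀ u : Fin n, (y u = true ↔ A (2 * s * (n + s) + u)) := fun u => decide_eq_true_iff
    refine ⟨C, y, ?_⟩
    refine lt_of_lt_of_le (hA fun _ => False).1 (Nat.mul_le_mul_left _ (cnt_mono ?_))
    intro v hv hvJ
    constructor
    · intro hT
      have h1 := ((hA fun _ => False).2 v hv hvJ).1 hT
      exact ⟨fun j => decide (A (2 * s * (n + s) + n + m + (v * s + j))),
        (phi_iff hℓ hC hy v _ (fun j : Fin s =>
          decide (A (2 * s * (n + s) + n + m + (v * s + j)))) (fun j => decide_eq_true_iff)).1 h1⟩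
    · rintro ⟨w, hw⟩
      by_contra hT
      have h1 := ((hA fun j => ∃ h : j < s, w ⟨j, h⟩ = true).2 v hv hvJ).2 hT
      apply h1
      refine (phi_iff hℓ hC hy v _ w ?_).2 hw
      intro j
      constructor
      · exact fun h2 => ⟨j.2, h2⟩
      · rintro ⟨_, h2⟩
        exact h2

end Pool.Agent.BookAv
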