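import Pool.Agent.BookAv.Defs

/-!
# Only finitely many places matter
-/

set_option autoImplicit false

namespace Pool.Agent.BookAv

private theorem cnt_congr (m : ℕ) {P Q : ℕ → Prop} (h : ∀ v < m, (P v ↔ Q v)) :
    cnt m P = cnt m Q := by
  classical
  unfold cnt
  refine Finset.sum_congr rfl fun v hv => ?_
  simp only [h v (Finset.mem_range.1 hv)]

private theorem val_congr (n s ℓ : ℕ) {A A' W W' : ℕ → Prop} (v : ℕ)
    (hA : ∀ p < 2 * s * (n + s) + n, (A p ↔ A' p)) (hW : ∀ p < s, (W p ↔ W' p)) {u : ℕ}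
    (hu : u < n + s) : Val n s ℓ A v W u ↔ Val n s ℓ A' v W' u := by
  unfold Val
  refine or_congr Iff.rfl (or_congr ?_ ?_)
  · refine and_congr Iff.rfl (and_congr_right fun h => hA _ (by omega))
  · refine and_congr Iff.rfl (and_congr_right fun h => hW _ (by omega))

private theorem phi_congr (n s ℓ : ℕ) {A A' W W' : ℕ → Prop} (v : ℕ)
    (hA : ∀ p < 2 * s * (n + s) + n, (A p ↔ A' p)) (hW : ∀ p < s, (W p ↔ W' p)) :
    phi n s ℓ A v W ↔ phi n s ℓ A' v W' := by
  unfold phi
  refine forall₂_congr fun i hi => exists_congr fun u => and_congr_right fun hu => ?_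
  have h1 : (i * (n + s) + u) * 2 + 1 < 2 * s * (n + s) := by
    have h2 : (i + 1) * (n + s) ≤ s * (n + s) := Nat.mul_le_mul_right _ hi
    have h3 : (i + 1) * (n + s) = i * (n + s) + (n + s) := by ring
    have h4 : 2 * s * (n + s) = 2 * (s * (n + s)) := by ring
    omega
  rw [val_congr n s ℓ v hA hW hu, hA _ (by omega : (i * (n + s) + u) * 2 + 1 < _),
    hA _ (by omega : (i * (n + s) + u) * 2 < _)]

/-- Only the first places of `T`, `A`, `W` matter. -/
theorem beta_congr (n s ℓ m : ℕ) {T T' A A' W W' : ℕ → Prop} (hT : ∀ p < m, (T p ↔ T' p))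
    (hA : ∀ p < 2 * s * (n + s) + n + m + m * s, (A p ↔ A' p)) (hW : ∀ p < s, (W p ↔ W' p)) :
    beta n s ℓ m T A W ↔ beta n s ℓ m T' A' W' := by
  unfold beta
  have hA0 : ∀ p < 2 * s * (n + s) + n, (A p ↔ A' p) := fun p hp => hA p (by omega)
  refine and_congr ?_ (forall₂_congr fun v hv => ?_)
  · rw [cnt_congr m fun v hv => hA (2 * s * (n + s) + n + v) (by omega)]
  · refine imp_congr (hA _ (by omega)) (and_congr (imp_congr (hT v hv) ?_)
      (imp_congr (not_congr (hT v hv)) (not_congr (phi_congr n s ℓ v hA0 hW))))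
    refine phi_congr n s ℓ v hA0 fun j hj => hA _ ?_
    have h2 : (v + 1) * s ≤ m * s := Nat.mul_le_mul_right _ hv
    have h3 : (v + 1) * s = v * s + s := by ring
    omega

/-- Every choice of the first `r` places is given by a word. -/
theorem exists_word (P : ℕ → Prop) (r : ℕ) :
    ∃ w : List Bool, w.length = r ∧ ∀ p < r, (bt w p ↔ P p) := by
  classical
  refine ⟨(List.range r).map fun p => decide (P p), by simp, fun p hp => ?_⟩
  unfold bt
  simp [hp]

end Pool.Agent.BookAv
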