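import Pool.Agent.BookAv.Defs

/-!
# From truth tables to words; the first good truth table
-/

set_option autoImplicit false

namespace Pool.Agent.BookAv

private lemma count_bt {n : ℕ} (x : Fin n → Bool) (j : ℕ) (hj : j < n) :
    bt (List.ofFn x) j ↔ x ⟨j, hj⟩ = true := by
  unfold bt
  rw [List.getElem?_ofFn]
  simp [hj]

private lemma count_eq {ℓ v w : ℕ} (hv : v < 2 ^ ℓ) (hw : w < 2 ^ ℓ)
    (h : ∀ j < ℓ, v.testBit j = w.testBit j) : v = w := by
  apply Nat.eq_of_testBit_eq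
  intro j
  rcases lt_or_ge j ℓ with hj | hj
  · exact h j hj
  · have h2 : 2 ^ ℓ ≤ 2 ^ j := Nat.pow_le_pow_right (by norm_num) hj
    rw [Nat.testBit_lt_two_pow (lt_of_lt_of_le hv h2), Nat.testBit_lt_two_pow (lt_of_lt_of_le hw h2)]

private lemma count_num {n ℓ : ℕ} (hℓ : ℓ ≤ n) (x : Fin n → Bool) :
    ∃ v < 2 ^ ℓ, ∀ (j : ℕ) (hj : j < ℓ), v.testBit j = x ⟨j, lt_of_lt_of_le hj hℓ⟩ :=
  ⟨Nat.ofBits fun j : Fin ℓ => x ⟨j, lt_of_lt_of_le j.2 hℓ⟩, Nat.ofBits_lt_two_pow _,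
    fun j hj => Nat.testBit_ofBits_lt _ j hj⟩

theorem agree_le (n s ℓ : ℕ) (hs : 0 < s) (hℓ : ℓ ≤ n) (T : ℕ → Prop)
    (hT : ¬ SBad n s ℓ (2 ^ ℓ) T) (L : Set (List Bool))
    (hL : ∀ x : Fin n → Bool, List.ofFn x ∈ L ↔
      ∃ v < 2 ^ ℓ, (∀ j < ℓ, (v.testBit j = true ↔ bt (List.ofFn x) j)) ∧ T v)
    (C : NCirc n s) : (agree L C : ℝ) ≤ ((1 : ℝ) / 2 + 1 / s) * 2 ^ n := by
  classical
  choose num hnum hbit using count_num hℓ (n := n)
  have hLT : ∀ x : Fin n → Bool, List.ofFn x ∈ L ↔ T (num x) := by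
    intro x
    rw [hL]
    constructor
    · rintro ⟨v, hv, hb, hTv⟩
      have : v = num x := by
        apply count_eq hv (hnum x)
        intro j hj
        have h1 := hb j hj
        rw [count_bt x j (lt_of_lt_of_le hj hℓ), ← hbit x j hj] at h1
        exact Bool.eq_iff_iff.2 h1
      rwa [← this]
    · intro h
      refine ⟨num x, hnum x, fun j hj => ?_, h⟩
      rw [count_bt x j (lt_of_lt_of_le hj hℓ), ← hbit x j hj]
  have hmix : ∀ (x : Fin n → Bool) (v : ℕ), mix ℓ (num x) (mix ℓ v x) = x := by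
    intro x v
    funext u
    unfold mix
    by_cases hu : (u : ℕ) < ℓ
    · simp only [hu, if_true]
      exact hbit x u hu
    · simp only [hu, if_false]
  set P : (Fin n → Bool) → ℕ → Prop := fun y v => (T v ↔ C.Acc (mix ℓ v y)) with hP
  let S : Finset ((Fin n → Bool) × ℕ) :=
    (Finset.univ ×ˢ Finset.range (2 ^ ℓ)).filter fun p => P p.1 p.2
  have hS : S.card = ∑ y : Fin n → Bool, cnt (2 ^ ℓ) (P y) := by
    simp only [S, Finset.card_filter, Finset.sum_product, cnt]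
    refine Finset.sum_congr rfl fun y _ => Finset.sum_congr rfl fun v _ => ?_
    congr
  let G : Finset (Fin n → Bool) := Finset.univ.filter fun x => (List.ofFn x ∈ L ↔ C.Acc x)
  have hG : agree L C = G.card := by
    unfold agree
    rw [Nat.card_eq_fintype_card, Fintype.card_subtype]
  have hinj : (G ×ˢ Finset.range (2 ^ ℓ)).card ≤ S.card := by
    refine Finset.card_le_card_of_injOn (fun p => (mix ℓ p.2 p.1, num p.1)) ?_ ?_
    · rintro ⟨x, v⟩ hx
      simp only [Finset.coe_product, Set.mem_prod, Finset.mem_coe, Finset.mem_range, G,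
        Finset.mem_filter, Finset.mem_univ, true_and] at hx
      simp only [S, Finset.mem_coe, Finset.mem_filter, Finset.mem_product, Finset.mem_univ,
        true_and, Finset.mem_range]
      refine ⟨hnum x, ?_⟩
      simp only [hP, hmix, ← hLT]
      exact hx.1
    · rintro ⟨x, v⟩ hx ⟨x', v'⟩ hx' h
      simp only [Finset.coe_product, Set.mem_prod, Finset.mem_coe, Finset.mem_range] at hx hx'
      simp only [Prod.mk.injEq] at h
      obtain ⟨h1, h2⟩ := h
      have hxx : x = x' := by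
        rw [← hmix x v, ← hmix x' v', h1, h2]
      subst hxx
      have hvv : v = v' := by
        apply count_eq hx.2 hx'.2
        intro j hj
        have h3 := congrFun h1 ⟨j, lt_of_lt_of_le hj hℓ⟩
        unfold mix at h3
        simpa only [hj, if_true] using h3
      rw [hvv]
  rw [Finset.card_product, Finset.card_range, hS] at hinj
  have hle : ∀ y : Fin n → Bool, 2 * s * cnt (2 ^ ℓ) (P y) ≤ 2 ^ ℓ * (s + 2) := by
    intro y
    by_contra hcon
    exact hT ⟨C, y, not_le.1 hcon⟩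
  have h4 : 2 * s * (G.card * 2 ^ ℓ) ≤ 2 ^ n * (2 ^ ℓ * (s + 2)) := by
    calc 2 * s * (G.card * 2 ^ ℓ) ≤ 2 * s * ∑ y : Fin n → Bool, cnt (2 ^ ℓ) (P y) :=
          Nat.mul_le_mul_left _ hinj
      _ = ∑ y : Fin n → Bool, 2 * s * cnt (2 ^ ℓ) (P y) := Finset.mul_sum _ _ _
      _ ≤ ∑ _y : Fin n → Bool, 2 ^ ℓ * (s + 2) := Finset.sum_le_sum fun y _ => hle y
      _ = 2 ^ n * (2 ^ ℓ * (s + 2)) := by
          rw [Finset.sum_const, Finset.card_univ, smul_eq_mul, Fintype.card_fun,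
            Fintype.card_bool, Fintype.card_fin]
  have h5 : 2 * s * G.card ≤ 2 ^ n * (s + 2) := by
    have h6 : 0 < 2 ^ ℓ := by positivity
    apply Nat.le_of_mul_le_mul_right _ h6
    calc 2 * s * G.card * 2 ^ ℓ = 2 * s * (G.card * 2 ^ ℓ) := by ring
      _ ≤ 2 ^ n * (2 ^ ℓ * (s + 2)) := h4
      _ = 2 ^ n * (s + 2) * 2 ^ ℓ := by ring
  have h7 : (2 : ℝ) * s * G.card ≤ 2 ^ n * (s + 2) := by exact_mod_cast h5
  have hs' : (0 : ℝ) < s := by exact_mod_cast hs
  rw [hG]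
  have h8 : ((1 : ℝ) / 2 + 1 / s) * 2 ^ n = 2 ^ n * (s + 2) / (2 * s) := by
    field_simp
  rw [h8, le_div_iff₀ (by positivity)]
  linarith

end Pool.Agent.BookAv
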