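import Pool.Agent.BookAv.Defs

/-!
# Hard truth tables exist
-/

set_option autoImplicit false

namespace Pool.Agent.BookAv

private theorem exist_sum {m : ℕ} (x : ℝ) (g : Fin m → Bool) :
    ∑ t : Fin m → Bool, ∏ v, Real.exp (x * (if t v = g v then 1 else -1)) =
      (Real.exp x + Real.exp (-x)) ^ m := by
  have h := Finset.prod_univ_sum (fun _ : Fin m => (Finset.univ : Finset Bool))
    (fun v b => Real.exp (x * (if b = g v then 1 else -1)))
  rw [Fintype.piFinset_univ] at h
  rw [← h]
  have h2 : ∀ v : Fin m, ∑ b : Bool, Real.exp (x * (if b = g v then 1 else -1)) =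
      Real.exp x + Real.exp (-x) := by
    intro v
    cases g v <;> simp [add_comm]
  rw [Finset.prod_congr rfl fun v _ => h2 v]
  simp

private theorem exist_count {m s : ℕ} (hs : 0 < s) (g : Fin m → Bool) :
    (((Finset.univ : Finset (Fin m → Bool)).filter fun t =>
        m * (s + 2) < 2 * s * (Finset.univ.filter fun v => t v = g v).card).card : ℝ) *
      Real.exp (2 * m / s ^ 2) ≤ 2 ^ m := by
  set x : ℝ := 2 / s with hx
  have hs' : (0 : ℝ) < s := Nat.cast_pos.2 hs
  have hsum := exist_sum x g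
  have hcosh : (Real.exp x + Real.exp (-x)) ^ m ≤ 2 ^ m * Real.exp (2 * m / s ^ 2) := by
    have h1 : Real.exp x + Real.exp (-x) = 2 * Real.cosh x := by
      rw [Real.cosh_eq]
      ring
    have h2 : Real.exp x + Real.exp (-x) ≤ 2 * Real.exp (x ^ 2 / 2) := by
      rw [h1]
      exact mul_le_mul_of_nonneg_left (Real.cosh_le_exp_half_sq x) (by norm_num)
    have h3 : (Real.exp x + Real.exp (-x)) ^ m ≤ (2 * Real.exp (x ^ 2 / 2)) ^ m :=
      pow_le_pow_left₀ (by positivity) h2 m
    refine h3.trans (le_of_eq ?_)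
    rw [mul_pow, ← Real.exp_nat_mul]
    congr 2
    rw [hx]
    field_simp
  have hbig : ∀ t ∈ (Finset.univ : Finset (Fin m → Bool)).filter fun t =>
        m * (s + 2) < 2 * s * (Finset.univ.filter fun v => t v = g v).card,
      Real.exp (4 * m / s ^ 2) ≤ ∏ v, Real.exp (x * (if t v = g v then 1 else -1)) := by
    intro t ht
    have ht' := (Finset.mem_filter.1 ht).2
    rw [← Real.exp_sum, Real.exp_le_exp, ← Finset.mul_sum]
    set a := (Finset.univ.filter fun v => t v = g v).card with ha
    have h1 : ∑ v : Fin m, (if t v = g v then (1 : ℝ) else -1) = 2 * a - m := by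
      rw [Finset.sum_ite, Finset.sum_const, Finset.sum_const, ← ha]
      have h2 : ((Finset.univ.filter fun v => ¬ t v = g v).card : ℝ) = m - a := by
        have h3 := Finset.card_filter_add_card_filter_not (s := (Finset.univ : Finset (Fin m)))
          (fun v => t v = g v)
        rw [Finset.card_univ, Fintype.card_fin, ← ha] at h3
        have h4 : (a : ℝ) + ((Finset.univ.filter fun v => ¬ t v = g v).card : ℝ) = m := by
          exact_mod_cast h3
        linarith
      rw [nsmul_eq_mul, nsmul_eq_mul, h2]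
      ring
    rw [h1]
    have h2 : ((m : ℝ) * (s + 2)) < 2 * s * a := by exact_mod_cast ht'
    rw [hx, div_mul_eq_mul_div, div_le_div_iff₀ (by positivity) hs']
    nlinarith
  have hle : (((Finset.univ : Finset (Fin m → Bool)).filter fun t =>
        m * (s + 2) < 2 * s * (Finset.univ.filter fun v => t v = g v).card).card : ℝ) *
      Real.exp (4 * m / s ^ 2) ≤ 2 ^ m * Real.exp (2 * m / s ^ 2) := by
    rw [← nsmul_eq_mul]
    refine (Finset.card_nsmul_le_sum _ _ _ hbig).trans ?_
    refine (Finset.sum_le_sum_of_subset_of_nonneg (Finset.subset_univ _)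
      fun t _ _ => Finset.prod_nonneg fun v _ => (Real.exp_pos _).le).trans ?_
    rw [hsum]
    exact hcosh
  have he : Real.exp (4 * m / s ^ 2) = Real.exp (2 * m / s ^ 2) * Real.exp (2 * m / s ^ 2) := by
    rw [← Real.exp_add]
    congr 1
    ring
  rw [he, ← mul_assoc] at hle
  exact le_of_mul_le_mul_right hle (Real.exp_pos _)

/-- The exponential moment estimate: for a finite family `F` of functions there is a truth table
which agrees with none of them in more than `m / 2 + m / s` places. -/
theorem exists_far {ι : Type} [Fintype ι] (m s : ℕ) (hs : 0 < s) (f : ι → Fin m → Bool)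
    (h : (Fintype.card ι : ℝ) < Real.exp (2 * m / s ^ 2)) :
    ∃ t : Fin m → Bool, ∀ i, 2 * s * (Finset.univ.filter fun v => t v = f i v).card ≤
      m * (s + 2) := by
  classical
  by_contra hcon
  push Not at hcon
  have hcov : (Finset.univ : Finset (Fin m → Bool)) ⊆ (Finset.univ : Finset ι).biUnion fun i =>
      (Finset.univ : Finset (Fin m → Bool)).filter fun t =>
        m * (s + 2) < 2 * s * (Finset.univ.filter fun v => t v = f i v).card := by
    intro t _
    obtain ⟨i, hi⟩ := hcon t
    exact Finset.mem_biUnion.2 ⟨i, Finset.mem_univ _, Finset.mem_filter.2 ⟨Finset.mem_univ _, hi⟩⟩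
  have h1 := (Finset.card_le_card hcov).trans Finset.card_biUnion_le
  have h2 : (2 : ℝ) ^ m ≤ ∑ i : ι, (((Finset.univ : Finset (Fin m → Bool)).filter fun t =>
        m * (s + 2) < 2 * s * (Finset.univ.filter fun v => t v = f i v).card).card : ℝ) := by
    have h3 : Fintype.card (Fin m → Bool) = 2 ^ m := by simp
    rw [Finset.card_univ, h3] at h1
    exact_mod_cast h1
  have hE : 0 < Real.exp (2 * m / (s : ℝ) ^ 2) := Real.exp_pos _
  have h4 : (2 : ℝ) ^ m * Real.exp (2 * m / s ^ 2) ≤ Fintype.card ι * 2 ^ m := by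
    refine (mul_le_mul_of_nonneg_right h2 hE.le).trans ?_
    rw [Finset.sum_mul]
    refine (Finset.sum_le_sum fun i _ => exist_count hs (f i)).trans (le_of_eq ?_)
    rw [Finset.sum_const, Finset.card_univ, nsmul_eq_mul]
  have h5 : (Fintype.card ι : ℝ) * 2 ^ m < 2 ^ m * Real.exp (2 * m / s ^ 2) := by
    rw [mul_comm]
    exact mul_lt_mul_of_pos_left h (by positivity)
  linarith

theorem exists_good (n s ℓ m : ℕ) (hs : 0 < s) (h : (2 * s * (n + s) + n) * s ^ 2 < 2 * m) :
    ∃ T : ℕ → Prop, ¬ SBad n s ℓ m T := by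
  classical
  have hfin : Fintype (NCirc n s) := by
    unfold NCirc
    infer_instance
  have hc1 : Fintype.card (NCirc n s) = 2 ^ (2 * s * (n + s)) := by
    have e : Fintype.card (NCirc n s) = Fintype.card (Fin s → Fin n ⊕ Fin s → Bool → Bool) :=
      Fintype.card_congr (Equiv.refl _)
    rw [e]
    simp only [Fintype.card_fun, Fintype.card_fin, Fintype.card_sum, Fintype.card_bool]
    rw [← pow_mul, ← pow_mul]
    congr 1
    ring
  have hc2 : Fintype.card (NCirc n s × (Fin n → Bool)) = 2 ^ (2 * s * (n + s) + n) := by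
    rw [Fintype.card_prod, hc1]
    simp only [Fintype.card_fun, Fintype.card_fin, Fintype.card_bool]
    rw [← pow_add]
  have hs' : (0 : ℝ) < s := Nat.cast_pos.2 hs
  have hcard : (Fintype.card (NCirc n s × (Fin n → Bool)) : ℝ) < Real.exp (2 * m / s ^ 2) := by
    rw [hc2]
    set K := 2 * s * (n + s) + n with hK
    have h1 : ((2 ^ K : ℕ) : ℝ) ≤ Real.exp K := by
      have h2 : (2 : ℝ) ≤ Real.exp 1 := by
        have := Real.add_one_le_exp (1 : ℝ)
        linarith
      have h3 : (2 : ℝ) ^ K ≤ Real.exp 1 ^ K := pow_le_pow_left₀ (by norm_num) h2 K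
      rw [← Real.exp_nat_mul, mul_one] at h3
      push_cast
      exact h3
    refine lt_of_le_of_lt h1 (Real.exp_lt_exp.2 ?_)
    rw [lt_div_iff₀ (by positivity)]
    exact_mod_cast h
  obtain ⟨t, ht⟩ := exists_far m s hs (fun (Cy : NCirc n s × (Fin n → Bool)) (v : Fin m) =>
    decide (Cy.1.Acc (mix ℓ v Cy.2))) hcard
  refine ⟨fun v => ∃ hv : v < m, t ⟨v, hv⟩ = true, ?_⟩
  rintro ⟨C, y, hC⟩
  have h1 := ht (C, y)
  have h2 : cnt m (fun v => ((∃ hv : v < m, t ⟨v, hv⟩ = true) ↔ C.Acc (mix ℓ v y))) =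
      (Finset.univ.filter fun v : Fin m => t v = decide (C.Acc (mix ℓ v y))).card := by
    unfold cnt
    rw [Finset.sum_range, Finset.card_filter]
    refine Finset.sum_congr rfl fun v _ => ?_
    have h3 : ((∃ hv : (v : ℕ) < m, t ⟨v, hv⟩ = true) ↔ C.Acc (mix ℓ v y)) ↔
        t v = decide (C.Acc (mix ℓ v y)) := by
      have h4 : (∃ hv : (v : ℕ) < m, t ⟨v, hv⟩ = true) ↔ t v = true :=
        ⟨fun ⟨_, h⟩ => h, fun h => ⟨v.isLt, h⟩⟩
      rw [h4]
      by_cases hA : C.Acc (mix ℓ v y)
      · simp [hA]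
      · simp [hA]
    by_cases hh : t v = decide (C.Acc (mix ℓ v y))
    · rw [if_pos hh]
      exact if_pos (h3.2 hh)
    · rw [if_neg hh]
      exact if_neg (fun h5 => hh (h3.1 h5))
  rw [h2] at hC
  exact absurd h1 (not_le.2 hC)

end Pool.Agent.BookAv
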