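import Pool.Agent.BookAv.Defs

/-!
# The first good truth table
-/

set_option autoImplicit false

namespace Pool.Agent.BookAv

theorem ltT_trich (m : ℕ) (T T' : ℕ → Prop) :
    (∀ v < m, (T v ↔ T' v)) ∨ ltT m T T' ∨ ltT m T' T := by
  classical
  by_cases h : ∀ v < m, (T v ↔ T' v)
  · exact Or.inl h
  · have hex : ∃ v, v < m ∧ ¬ (T v ↔ T' v) := by
      by_contra hno
      exact h fun v hv => by
        by_contra hv'
        exact hno ⟨v, hv, hv'⟩
    have hspec := Nat.find_spec hex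
    have hmin : ∀ j < Nat.find hex, (T j ↔ T' j) := by
      intro j hj
      by_contra hj'
      exact Nat.find_min hex hj ⟨hj.trans hspec.1, hj'⟩
    by_cases hT : T (Nat.find hex)
    · have hT' : ¬ T' (Nat.find hex) := fun h' => hspec.2 ⟨fun _ => h', fun _ => hT⟩
      exact Or.inr (Or.inr ⟨Nat.find hex, hspec.1, hT', hT, fun j hj => (hmin j hj).symm⟩)
    · have hT' : T' (Nat.find hex) := by
        by_contra h'
        exact hspec.2 ⟨fun h1 => absurd h1 hT, fun h1 => absurd h1 h'⟩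
      exact Or.inr (Or.inl ⟨Nat.find hex, hspec.1, hT, hT', hmin⟩)

/-- The first good truth table. -/
theorem exists_first (m : ℕ) (G : (ℕ → Prop) → Prop)
    (hG : ∀ T T' : ℕ → Prop, (∀ v < m, (T v ↔ T' v)) → G T → G T') (hne : ∃ T, G T) :
    ∃ T, G T ∧ ∀ T', ltT m T' T → ¬ G T' := by
  clear hG
  induction m generalizing G with
  | zero =>
    obtain ⟨T, hT⟩ := hne
    exact ⟨T, hT, fun T' ⟨i, hi, _⟩ => absurd hi (Nat.not_lt_zero i)⟩
  | succ m ih =>
    obtain ⟨T₁, hT₁, hmin⟩ := ih (fun T => ∃ T', (∀ v < m, (T v ↔ T' v)) ∧ G T') (by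
      obtain ⟨T, hT⟩ := hne
      exact ⟨T, T, fun _ _ => Iff.rfl, hT⟩)
    by_cases hex : ∃ T', (∀ v < m, (T₁ v ↔ T' v)) ∧ G T' ∧ ¬ T' m
    · obtain ⟨T, h1, h2, h3⟩ := hex
      refine ⟨T, h2, ?_⟩
      rintro T' ⟨i, hi, hn, hp, hag⟩ hG'
      rcases Nat.lt_succ_iff_lt_or_eq.mp hi with h | h
      · exact hmin T' ⟨i, h, hn, (h1 i h).mpr hp,
          fun j hj => (hag j hj).trans (h1 j (hj.trans h)).symm⟩ ⟨T', fun _ _ => Iff.rfl, hG'⟩
      · subst h
        exact h3 hp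
    · obtain ⟨T, h1, h2⟩ := hT₁
      refine ⟨T, h2, ?_⟩
      rintro T' ⟨i, hi, hn, hp, hag⟩ hG'
      rcases Nat.lt_succ_iff_lt_or_eq.mp hi with h | h
      · exact hmin T' ⟨i, h, hn, (h1 i h).mpr hp,
          fun j hj => (hag j hj).trans (h1 j (hj.trans h)).symm⟩ ⟨T', fun _ _ => Iff.rfl, hG'⟩
      · subst h
        exact hex ⟨T', fun v hv => (h1 v hv).trans (hag v hv).symm, hG', hn⟩

end Pool.Agent.BookAv
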