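import Pool.Agent.BookAv.Defs

/-!
# Predicates given by terms are in POLYLOGSPACE
-/

set_option autoImplicit false

namespace Pool.Agent.BookAv

open Pool.Agent.PT Pool.Agent.Book19 Pool.Agent.BookPL

theorem inPL_of_UP {Γ : Type} [Fintype Γ] {L : Set (List Γ)} (h : UP (fun x _ => x ∈ L)) :
    InPL Γ L := by
  classical
  refine inPL_of_while 2 le_rfl (fun j x _ => if j = 1 then (if x ∈ L then 1 else 0) else 0)
    (fun j => ?_) L (fun _ => 1) (QB.const 1) fun x => ?_
  · by_cases hj : j = 1
    · subst hj
      exact UF.congr h fun x e => by simp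
    · exact (UF.const 0).congr fun x e => by simp [hj]
  · refine ⟨1, le_rfl, fun i hi => ?_, ?_, fun i hi j => ?_, ?_⟩
    · obtain rfl : i = 0 := by omega
      simp [e₀]
    · simp [vstep]
    · rcases Nat.lt_or_ge i 1 with h1 | h1
      · obtain rfl : i = 0 := by omega
        simp only [Function.iterate_zero, id_eq, e₀]
        split_ifs <;> omega
      · obtain rfl : i = 1 := by omega
        simp only [Function.iterate_one, vstep]
        split_ifs <;> omega
    · simp only [Function.iterate_one, vstep]
      by_cases hx : x ∈ L <;> simp [hx]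

end Pool.Agent.BookAv
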