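import Pool.Agent.BookAv.Defs

/-!
# The sizes
-/

set_option autoImplicit false

namespace Pool.Agent.BookAv

open Filter Topology

private theorem lt_two_pow_log (n : ℕ) : n < 2 ^ (Nat.log 2 n + 1) :=
  Nat.lt_pow_succ_log_self (by norm_num) n

/-- The main estimate of the sizes. -/
private theorem core_lt (n a : ℕ) :
    2 * 2 ^ a * (n + 2 ^ a) + n < 2 ^ (Nat.log 2 n + 2 * a + 4) := by
  set l := Nat.log 2 n with hl
  have hn : n < 2 ^ (l + 1) := lt_two_pow_log n
  set A := 2 ^ a with hA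
  set P := 2 ^ l with hP
  have hA1 : 1 ≤ A := Nat.one_le_two_pow
  have hP1 : 1 ≤ P := Nat.one_le_two_pow
  have hn2 : n < 2 * P := by
    have : 2 ^ (l + 1) = 2 * P := by rw [hP]; ring
    omega
  have hrhs : 2 ^ (l + 2 * a + 4) = 16 * P * (A * A) := by
    rw [hA, hP]
    have : l + 2 * a + 4 = l + (a + a) + 4 := by ring
    rw [this, pow_add, pow_add, pow_add]; ring
  rw [hrhs]
  -- `2 A n < 4 A P`, `2 A A`, `n < 2 P`
  have h1 : 2 * A * n ≤ 4 * (P * (A * A)) := by
    calc 2 * A * n ≤ 2 * A * (2 * P) := Nat.mul_le_mul_left _ hn2.le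
      _ = 4 * (P * (A * 1)) := by ring
      _ ≤ 4 * (P * (A * A)) := by gcongr
  have h2 : 2 * A * A ≤ 2 * (P * (A * A)) := by
    calc 2 * A * A = 2 * (1 * (A * A)) := by ring
      _ ≤ 2 * (P * (A * A)) := by gcongr
  have h3 : 2 * P ≤ 2 * (P * (A * A)) := by
    calc 2 * P = 2 * (P * (1 * 1)) := by ring
      _ ≤ 2 * (P * (A * A)) := by gcongr
  have h4 : 2 * A * (n + A) = 2 * A * n + 2 * A * A := by ring
  have h5 : 16 * P * (A * A) = 16 * (P * (A * A)) := by ring
  rw [h4, h5]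
  have h6 : 1 ≤ P * (A * A) := Nat.one_le_iff_ne_zero.mpr (by positivity)
  omega

theorem sizes (k : ℕ) : ∀ᶠ n in atTop, 2 ≤ n ∧ ell k n ≤ n ∧
    (2 * sz k n * (n + sz k n) + n) * sz k n ^ 2 < 2 * tm k n := by
  have hlog : Tendsto (fun n : ℕ => Nat.log 2 n) atTop atTop := by
    refine tendsto_atTop.mpr fun b => ?_
    filter_upwards [eventually_ge_atTop (2 ^ b)] with n hn
    exact (Nat.le_log_iff_pow_le (by norm_num) (by
      have : 0 < 2 ^ b := by positivity
      omega)).mpr hn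
  have hpow : ∀ᶠ l : ℕ in atTop, l ^ (k + 2) ≤ 2 ^ l := by
    have h := tendsto_pow_const_div_const_pow_of_one_lt (k + 2) (r := (2 : ℝ)) (by norm_num)
    filter_upwards [h.eventually (gt_mem_nhds (show (0 : ℝ) < 1 by norm_num))] with l hl
    have h2 : (0 : ℝ) < 2 ^ l := by positivity
    rw [div_lt_one h2] at hl
    exact_mod_cast hl.le
  filter_upwards [eventually_ge_atTop 2, hlog.eventually hpow,
    hlog.eventually (eventually_ge_atTop 4)] with n hn h1 h2
  refine ⟨hn, ?_, ?_⟩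
  · unfold ell
    exact h1.trans (Nat.pow_log_le_self 2 (by omega))
  · unfold tm ell sz
    set l := Nat.log 2 n with hl
    set a := l ^ k with ha
    have ha1 : 1 ≤ a := Nat.one_le_pow _ _ (by omega)
    have hb : l ^ (k + 2) = a * (l * l) := by rw [ha]; ring
    rw [hb]
    have hc := core_lt n a
    rw [← hl] at hc
    have hsq : 0 < (2 ^ a) ^ 2 := by positivity
    calc (2 * 2 ^ a * (n + 2 ^ a) + n) * (2 ^ a) ^ 2
        < 2 ^ (l + 2 * a + 4) * (2 ^ a) ^ 2 := Nat.mul_lt_mul_of_pos_right hc hsq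
      _ = 2 ^ (l + 4 * a + 4) := by
          rw [← pow_mul, ← pow_add]; congr 1; ring
      _ ≤ 2 ^ (a * (l * l) + 1) := by
          apply Nat.pow_le_pow_right (by norm_num)
          have h3 : 4 * (a * l) ≤ a * (l * l) := by
            calc 4 * (a * l) = a * (4 * l) := by ring
              _ ≤ a * (l * l) := by gcongr
          have h4 : l ≤ a * l := Nat.le_mul_of_pos_left _ ha1
          have h5 : a * 4 ≤ a * l := Nat.mul_le_mul_left _ h2
          omega
      _ = 2 * 2 ^ (a * (l * l)) := by ring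

/-- The lengths of the words needed. -/
theorem lengths (k n : ℕ) :
    tm k n ≤ 2 ^ (Nat.log 2 n + 2) ^ (k + 4) ∧
    (∀ r, n ≤ r → Nat.log 2 (2 ^ (Nat.log 2 n + 2) ^ (k + 4)) < (Nat.log 2 r + 2) ^ (k + 5)) ∧
    (∀ r, n ≤ r → Nat.log 2 (tm k n + (2 * sz k n * (n + sz k n) + n + tm k n + tm k n * sz k n)) <
      (Nat.log 2 r + 2) ^ (k + 5)) ∧
    (∀ r, n ≤ r → Nat.log 2 (sz k n + (2 * sz k n * (n + sz k n) + n + tm k n + tm k n * sz k n)) <
      (Nat.log 2 r + 2) ^ (k + 5)) ∧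
    (∀ r, n ≤ r → Nat.log 2 (sz k n) < (Nat.log 2 r + 2) ^ (k + 5)) := by
  unfold tm ell sz
  set l := Nat.log 2 n with hl
  set a := l ^ k with ha
  set b := l ^ (k + 2) with hb
  set M := (l + 2) ^ (k + 2) with hM
  have haM : 4 * a ≤ M := by
    calc 4 * a = l ^ k * (2 * 2) := by rw [ha]; ring
      _ ≤ (l + 2) ^ k * ((l + 2) * (l + 2)) := by gcongr <;> omega
      _ = M := by rw [hM]; ring
  have hbM : b ≤ M := Nat.pow_le_pow_left (by omega) _
  have hlM : 2 * (l + 2) ≤ M := by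
    calc 2 * (l + 2) = 1 * (2 * (l + 2)) := by ring
      _ ≤ (l + 2) ^ k * ((l + 2) * (l + 2)) := by
          gcongr
          · exact Nat.one_le_pow _ _ (by omega)
          · omega
      _ = M := by rw [hM]; ring
  have hM5 : 8 * M ≤ (l + 2) ^ (k + 5) := by
    calc 8 * M = (2 * 2 * 2) * M := by ring
      _ ≤ ((l + 2) * (l + 2) * (l + 2)) * M := by gcongr <;> omega
      _ = (l + 2) ^ (k + 5) := by rw [hM]; ring
  have hmono : ∀ r, n ≤ r → (l + 2) ^ (k + 5) ≤ (Nat.log 2 r + 2) ^ (k + 5) := by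
    intro r hr
    apply Nat.pow_le_pow_left
    have := Nat.log_mono_right (b := 2) hr
    omega
  have hc := core_lt n a
  rw [← hl] at hc
  -- the total
  have htot : ∀ x, x ≤ 2 ^ (a + b) →
      x + (2 * 2 ^ a * (n + 2 ^ a) + n + 2 ^ b + 2 ^ b * 2 ^ a) < 2 ^ (b + 2 * a + l + 6) := by
    intro x hx
    have h1 : 2 ^ (l + 2 * a + 4) ≤ 2 ^ (b + 2 * a + l + 4) :=
      Nat.pow_le_pow_right (by norm_num) (by omega)
    have h2 : 2 ^ b ≤ 2 ^ (b + 2 * a + l + 4) := Nat.pow_le_pow_right (by norm_num) (by omega)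
    have h3 : 2 ^ b * 2 ^ a ≤ 2 ^ (b + 2 * a + l + 4) := by
      rw [← pow_add]; exact Nat.pow_le_pow_right (by norm_num) (by omega)
    have h4 : 2 ^ (a + b) ≤ 2 ^ (b + 2 * a + l + 4) :=
      Nat.pow_le_pow_right (by norm_num) (by omega)
    have h5 : 2 ^ (b + 2 * a + l + 6) = 4 * 2 ^ (b + 2 * a + l + 4) := by ring
    omega
  have hexp : b + 2 * a + l + 6 ≤ (l + 2) ^ (k + 5) := by omega
  refine ⟨?_, ?_, ?_, ?_, ?_⟩
  · apply Nat.pow_le_pow_right (by norm_num)
    calc b ≤ M := hbM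
      _ ≤ (l + 2) ^ (k + 4) := Nat.pow_le_pow_right (by omega) (by omega)
  · intro r hr
    rw [Nat.log_pow (by norm_num)]
    exact (Nat.pow_lt_pow_right (by omega) (by omega)).trans_le (hmono r hr)
  · intro r hr
    refine (Nat.log_lt_of_lt_pow' (by omega) (htot _ ?_)).trans_le (hexp.trans (hmono r hr))
    exact Nat.pow_le_pow_right (by norm_num) (by omega)
  · intro r hr
    refine (Nat.log_lt_of_lt_pow' (by omega) (htot _ ?_)).trans_le (hexp.trans (hmono r hr))
    exact Nat.pow_le_pow_right (by norm_num) (by omega)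
  · intro r hr
    rw [Nat.log_pow (by norm_num)]
    have := hmono r hr
    omega

end Pool.Agent.BookAv
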