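import Pool.Agent.BookAv.Words

/-!
# The kernel on words coding five words
-/

set_option autoImplicit false

namespace Pool.Agent.BookAv

open Pool.Agent.PT Pool.Agent.Book19 Pool.Agent.BookPL

private def c0 (b : Bool) : A4 := Sum.inl (Sum.inl (Sum.inl (Sum.inl b)))
private def c1 (b : Bool) : A4 := Sum.inl (Sum.inl (Sum.inl (Sum.inr b)))
private def c2 (b : Bool) : A4 := Sum.inl (Sum.inl (Sum.inr b))
private def c3 (b : Bool) : A4 := Sum.inl (Sum.inr b)
private def c4 (b : Bool) : A4 := Sum.inr b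

private lemma enc4_eq (x t w₂ w₃ w₄ : List Bool) : enc4 x t w₂ w₃ w₄ =
    x.map c0 ++ (t.map c1 ++ (w₂.map c2 ++ (w₃.map c3 ++ w₄.map c4))) := by
  unfold enc4
  simp only [List.map_append, List.map_map, List.append_assoc]
  rfl

private lemma countP_c (i j : ℕ) (c : Bool → A4) (hc : ∀ b, tg (c b) = j) (w : List Bool) :
    (w.map c).countP (fun a => tg a = i) = if j = i then w.length else 0 := by
  rw [List.countP_map]
  split_ifs with h
  · rw [List.countP_eq_length]
    intro b _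
    simp [hc, h]
  · rw [List.countP_eq_zero]
    intro b _
    simp [hc, h]

private lemma sc_enc4 (i : ℕ) (x t w₂ w₃ w₄ : List Bool) : sc i (enc4 x t w₂ w₃ w₄) =
    (if 0 = i then x.length else 0) + ((if 1 = i then t.length else 0) +
      ((if 2 = i then w₂.length else 0) + ((if 3 = i then w₃.length else 0) +
        (if 4 = i then w₄.length else 0)))) := by
  unfold sc
  rw [enc4_eq, List.countP_append, List.countP_append, List.countP_append, List.countP_append,
    countP_c i 0 c0 (fun _ => rfl), countP_c i 1 c1 (fun _ => rfl), countP_c i 2 c2 (fun _ => rfl),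
    countP_c i 3 c3 (fun _ => rfl), countP_c i 4 c4 (fun _ => rfl)]

private lemma bit_app (i : ℕ) (Y L R : List A4) (w : List Bool) (c : Bool → A4)
    (hY : Y = L ++ (w.map c ++ R)) (hL : ∑ j ∈ Finset.range i, sc j Y = L.length)
    (hs : sc i Y = w.length) (hc : ∀ b, bb (c b) = b) (p : ℕ) : bit i Y p ↔ bt w p := by
  unfold bit bt
  rw [hs, hL]
  have h1 : p < w.length → Y[L.length + p]? = (w[p]?).map c := by
    intro hp
    rw [hY, List.getElem?_append_right (by omega), Nat.add_sub_cancel_left,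
      List.getElem?_append_left (by simpa using hp), List.getElem?_map]
  constructor
  · rintro ⟨hp, a, ha, hb⟩
    rw [h1 hp] at ha
    obtain ⟨b, hb1, hb2⟩ := Option.map_eq_some_iff.1 ha
    rw [hb1, ← hb, ← hb2, hc]
  · intro h
    have hp : p < w.length := by
      by_contra hn
      rw [List.getElem?_eq_none (by omega)] at h
      cases h
    exact ⟨hp, c true, by rw [h1 hp, h]; rfl, hc true⟩

private lemma bit_enc4 (x t w₂ w₃ w₄ : List Bool) (p : ℕ) :
    (bit 0 (enc4 x t w₂ w₃ w₄) p ↔ bt x p) ∧ (bit 1 (enc4 x t w₂ w₃ w₄) p ↔ bt t p) ∧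
    (bit 2 (enc4 x t w₂ w₃ w₄) p ↔ bt w₂ p) ∧ (bit 3 (enc4 x t w₂ w₃ w₄) p ↔ bt w₃ p) ∧
    (bit 4 (enc4 x t w₂ w₃ w₄) p ↔ bt w₄ p) := by
  refine ⟨?_, ?_, ?_, ?_, ?_⟩
  · refine bit_app 0 _ [] (t.map c1 ++ (w₂.map c2 ++ (w₃.map c3 ++ w₄.map c4))) x c0 ?_ ?_ ?_
      (fun _ => rfl) p
    · rw [enc4_eq]; simp
    · simp
    · rw [sc_enc4]; simp
  · refine bit_app 1 _ (x.map c0) (w₂.map c2 ++ (w₃.map c3 ++ w₄.map c4)) t c1 ?_ ?_ ?_
      (fun _ => rfl) p
    · rw [enc4_eq]
    · simp [sc_enc4]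
    · rw [sc_enc4]; simp
  · refine bit_app 2 _ (x.map c0 ++ t.map c1) (w₃.map c3 ++ w₄.map c4) w₂ c2 ?_ ?_ ?_
      (fun _ => rfl) p
    · rw [enc4_eq]; simp
    · simp [Finset.sum_range_succ, sc_enc4]
    · rw [sc_enc4]; simp
  · refine bit_app 3 _ (x.map c0 ++ (t.map c1 ++ w₂.map c2)) (w₄.map c4) w₃ c3 ?_ ?_ ?_
      (fun _ => rfl) p
    · rw [enc4_eq]; simp
    · simp [Finset.sum_range_succ, sc_enc4, add_assoc]
    · rw [sc_enc4]; simp
  · refine bit_app 4 _ (x.map c0 ++ (t.map c1 ++ (w₂.map c2 ++ w₃.map c3))) [] w₄ c4 ?_ ?_ ?_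
      (fun _ => rfl) p
    · rw [enc4_eq]; simp
    · simp [Finset.sum_range_succ, sc_enc4, add_assoc]
    · rw [sc_enc4]; simp

private lemma cnt_eq (N : ℕ) (P : ℕ → Prop) [DecidablePred P] :
    cnt N P = ((Finset.range N).filter P).card := by
  unfold cnt
  rw [Finset.card_filter]
  refine Finset.sum_congr rfl fun v _ => ?_
  congr

private lemma pw_eq {Y : List A4} {e : ℕ} (he : 1 ≤ e) (hY : 2 ^ e ≤ Y.length) :
    pw Y e = 2 ^ e := by
  unfold pw
  rw [cnt_eq]
  refine (congrArg Finset.card (?_ : _ = Finset.range (2 ^ e))).trans (Finset.card_range _)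
  ext i
  rw [Finset.mem_filter, Finset.mem_range, Finset.mem_range]
  have h1 : Nat.log 2 i < e ↔ i < 2 ^ e := by
    rcases Nat.eq_zero_or_pos i with rfl | hi
    · simp only [Nat.log_zero_right]
      constructor
      · intro _
        positivity
      · intro _
        omega
    · exact Nat.log_lt_iff_lt_pow (by norm_num) hi.ne'
  rw [h1]
  constructor
  · exact fun h => h.2
  · exact fun h => ⟨h.trans_le hY, h⟩

theorem BaseY_enc4 (k : ℕ) (x t w₂ w₃ w₄ : List Bool) (hx : 2 ≤ x.length) :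
    BaseY k (enc4 x t w₂ w₃ w₄) ↔
      (Nat.log 2 x.length + 2) ^ (k + 4) ≤ Nat.log 2 t.length ∧
      base x.length (sz k x.length) (ell k x.length) (tm k x.length) (bt x) (bt t) (bt w₂)
        (fun p => bt w₂ (tm k x.length + p)) (bt w₃) (fun p => bt w₃ (sz k x.length + p))
        (bt w₄) := by
  have s0 : sc 0 (enc4 x t w₂ w₃ w₄) = x.length := by rw [sc_enc4]; simp
  have s1 : sc 1 (enc4 x t w₂ w₃ w₄) = t.length := by rw [sc_enc4]; simp
  have b0 : bit 0 (enc4 x t w₂ w₃ w₄) = bt x :=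
    funext fun p => propext (bit_enc4 x t w₂ w₃ w₄ p).1
  have b1 : bit 1 (enc4 x t w₂ w₃ w₄) = bt t :=
    funext fun p => propext (bit_enc4 x t w₂ w₃ w₄ p).2.1
  have b2 : bit 2 (enc4 x t w₂ w₃ w₄) = bt w₂ :=
    funext fun p => propext (bit_enc4 x t w₂ w₃ w₄ p).2.2.1
  have b3 : bit 3 (enc4 x t w₂ w₃ w₄) = bt w₃ :=
    funext fun p => propext (bit_enc4 x t w₂ w₃ w₄ p).2.2.2.1
  have b4 : bit 4 (enc4 x t w₂ w₃ w₄) = bt w₄ :=
    funext fun p => propext (bit_enc4 x t w₂ w₃ w₄ p).2.2.2.2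
  unfold BaseY
  rw [s0, s1, b0, b1, b2, b3, b4]
  refine and_congr_right fun h => ?_
  have hlog : 1 ≤ Nat.log 2 x.length := by
    rw [Nat.one_le_iff_ne_zero]
    intro h0
    rw [Nat.log_eq_zero_iff] at h0
    omega
  have ht : 2 ^ (Nat.log 2 x.length + 2) ^ (k + 4) ≤ t.length := by
    have ht0 : t.length ≠ 0 := by
      intro h0
      rw [h0, Nat.log_zero_right] at h
      have : 0 < (Nat.log 2 x.length + 2) ^ (k + 4) := by positivity
      omega
    exact (Nat.pow_le_pow_right (by norm_num) h).trans (Nat.pow_log_le_self 2 ht0)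
  have hlen : t.length ≤ (enc4 x t w₂ w₃ w₄).length := by
    rw [enc4_eq]
    simp only [List.length_append, List.length_map]
    omega
  have hp : ∀ j, j ≤ k + 4 →
      pw (enc4 x t w₂ w₃ w₄) (Nat.log 2 x.length ^ j) = 2 ^ Nat.log 2 x.length ^ j := by
    intro j hj
    refine pw_eq (Nat.one_le_pow _ _ hlog) ?_
    refine le_trans (Nat.pow_le_pow_right (by norm_num) ?_) (ht.trans hlen)
    calc Nat.log 2 x.length ^ j ≤ (Nat.log 2 x.length + 2) ^ j :=
          Nat.pow_le_pow_left (by omega) _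
      _ ≤ _ := Nat.pow_le_pow_right (by omega) hj
  rw [hp k (by omega), hp (k + 2) (by omega)]
  rfl

end Pool.Agent.BookAv
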