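import Pool.Agent.BookAv.Words
import Pool.Agent.Book19.Letter

/-!
# The kernel is given by terms
-/

set_option autoImplicit false

namespace Pool.Agent.BookAv

open Pool.Agent.PT Pool.Agent.Book19 Pool.Agent.BookPL

section Gen

variable {Γ : Type} {n s l m : List Γ → ℕ}

private theorem wuf_cnt {P : List Γ → ℕ → Prop} (hm : UF (fun x _ => m x))
    (hP : UP (fun x e => P x (e 0))) : UF (fun x _ => cnt (m x) (P x)) :=
  (UF.sum (f := fun x _ i => @ite ℕ (P x i) (Classical.propDecidable _) 1 0) hm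
    (UF.congr hP fun _ _ => rfl)).congr fun _ _ => rfl

variable (hn : UF (fun x _ => n x)) (hs : UF (fun x _ => s x)) (hl : UF (fun x _ => l x))
  (hm : UF (fun x _ => m x))

include hn hs hl in
private theorem wup_Val {A : List Γ → ℕ → Prop} {W : List Γ → ℕ → ℕ → Prop}
    (hA : UP (fun x e => A x (e 0))) (hW : UP (fun x e => W x (e 0) (e 1))) :
    UP (fun x e => Val (n x) (s x) (l x) (A x) (e 1) (W x (e 1)) (e 0)) := by
  unfold Val
  refine UP.or ?_ (UP.or ?_ ?_)
  · exact (UP.lt (UF.var 0) hl).and (UP.testBit (UF.var 1) (UF.var 0))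
  · refine (UP.le hl (UF.var 0)).and ((UP.lt (UF.var 0) hn).and ?_)
    exact hA.comp₁ ((((UF.const 2).mul hs).mul (hn.add hs)).add (UF.var 0))
  · refine (UP.le hl (UF.var 0)).and ((UP.le hn (UF.var 0)).and ?_)
    exact hW.comp₂ (UF.var 1) ((UF.var 0).sub hn)

include hn hs hl in
private theorem wup_phi {A : List Γ → ℕ → Prop} {W : List Γ → ℕ → ℕ → Prop}
    (hA : UP (fun x e => A x (e 0))) (hW : UP (fun x e => W x (e 0) (e 1))) :
    UP (fun x e => phi (n x) (s x) (l x) (A x) (e 0) (W x (e 0))) := by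
  unfold phi
  have hV := wup_Val hn hs hl hA hW
  have hV' : UP (fun (x : List Γ) (e : ℕ → ℕ) =>
      Val (n x) (s x) (l x) (A x) (e 2) (W x (e 2)) (e 0)) :=
    UP.comp₂ (P := fun x u v => Val (n x) (s x) (l x) (A x) v (W x v) u) hV (UF.var 0) (UF.var 2)
  refine UP.ball (P := fun x e i => ∃ u < n x + s x,
    (Val (n x) (s x) (l x) (A x) (e 0) (W x (e 0)) u ∧ A x ((i * (n x + s x) + u) * 2 + 1)) ∨
    (¬ Val (n x) (s x) (l x) (A x) (e 0) (W x (e 0)) u ∧ A x ((i * (n x + s x) + u) * 2))) hs ?_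
  refine UP.bex (P := fun x e u =>
    (Val (n x) (s x) (l x) (A x) (e 1) (W x (e 1)) u ∧ A x ((e 0 * (n x + s x) + u) * 2 + 1)) ∨
    (¬ Val (n x) (s x) (l x) (A x) (e 1) (W x (e 1)) u ∧ A x ((e 0 * (n x + s x) + u) * 2)))
    (hn.add hs) ?_
  have hi : UF (fun (x : List Γ) (e : ℕ → ℕ) => (e 1 * (n x + s x) + e 0) * 2) :=
    (((UF.var 1).mul (hn.add hs)).add (UF.var 0)).mul (UF.const 2)
  exact (hV'.and (hA.comp₁ (hi.add (UF.const 1)))).or (hV'.not.and (hA.comp₁ hi))

include hn hs hl hm in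
private theorem wup_beta {T A W : List Γ → ℕ → Prop} (hT : UP (fun x e => T x (e 0)))
    (hA : UP (fun x e => A x (e 0))) (hW : UP (fun x e => W x (e 0))) :
    UP (fun x _ => beta (n x) (s x) (l x) (m x) (T x) (A x) (W x)) := by
  unfold beta
  have hq : UF (fun (x : List Γ) (_ : ℕ → ℕ) => 2 * s x * (n x + s x) + n x) :=
    (((UF.const 2).mul hs).mul (hn.add hs)).add hn
  have hA1 : UP (fun (x : List Γ) (e : ℕ → ℕ) => A x (2 * s x * (n x + s x) + n x + e 0)) :=
    hA.comp₁ (hq.add (UF.var 0))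
  refine UP.and ?_ ?_
  · refine UP.lt (hm.mul (hs.add (UF.const 2))) (((UF.const 2).mul hs).mul ?_)
    exact wuf_cnt (P := fun x v => A x (2 * s x * (n x + s x) + n x + v)) hm hA1
  · refine UP.ball (P := fun x _ v => A x (2 * s x * (n x + s x) + n x + v) →
      (T x v → phi (n x) (s x) (l x) (A x) v
        (fun j => A x (2 * s x * (n x + s x) + n x + m x + (v * s x + j)))) ∧
      (¬ T x v → ¬ phi (n x) (s x) (l x) (A x) v (W x))) hm ?_
    have h1 := wup_phi hn hs hl (A := A)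
      (W := fun x v j => A x (2 * s x * (n x + s x) + n x + m x + (v * s x + j))) hA
      (hA.comp₁ ((hq.add hm).add (((UF.var 0).mul hs).add (UF.var 1))))
    have h2 := wup_phi hn hs hl (A := A) (W := fun x _ j => W x j) hA (hW.comp₁ (UF.var 1))
    exact hA1.imp ((hT.imp h1).and (hT.not.imp h2.not))

include hm in
private theorem wup_ltT {T T' : List Γ → ℕ → Prop} (hT : UP (fun x e => T x (e 0)))
    (hT' : UP (fun x e => T' x (e 0))) : UP (fun x _ => ltT (m x) (T' x) (T x)) := by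
  unfold ltT
  refine UP.bex (P := fun x _ i => ¬ T' x i ∧ T x i ∧ ∀ j < i, (T' x j ↔ T x j)) hm ?_
  refine hT'.not.and (hT.and ?_)
  exact UP.ball (P := fun x _ j => (T' x j ↔ T x j)) (UF.var 0) (hT'.iff hT)

include hn hs hl hm in
private theorem wup_base {X T T' A W A' W' : List Γ → ℕ → Prop}
    (hX : UP (fun x e => X x (e 0))) (hT : UP (fun x e => T x (e 0)))
    (hT' : UP (fun x e => T' x (e 0))) (hA : UP (fun x e => A x (e 0)))
    (hW : UP (fun x e => W x (e 0))) (hA' : UP (fun x e => A' x (e 0)))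
    (hW' : UP (fun x e => W' x (e 0))) :
    UP (fun x _ => base (n x) (s x) (l x) (m x) (X x) (T x) (T' x) (A x) (W x) (A' x) (W' x)) := by
  unfold base
  refine UP.and ?_ (UP.and (wup_beta hn hs hl hm hT hA hW).not
    ((wup_ltT hm hT hT').imp (wup_beta hn hs hl hm hT' hA' hW')))
  refine UP.bex (P := fun x _ v => (∀ j < l x, (v.testBit j = true ↔ X x j)) ∧ T x v) hm ?_
  refine UP.and ?_ hT
  refine UP.ball (P := fun x e j => ((e 0).testBit j = true ↔ X x j)) hl ?_
  exact (UP.testBit (UF.var 1) (UF.var 0)).iff hX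

end Gen

private theorem wuf_sc (i : ℕ) : UF (fun Y _ => sc i Y) :=
  UF.countP (fun a : A4 => decide (tg a = i))

private theorem wup_bit (i : ℕ) : UP (fun Y e => bit i Y (e 0)) := by
  unfold bit
  refine (UP.lt (UF.var 0) (wuf_sc i)).and ?_
  have h : UF (fun (Y : List A4) (e : ℕ → ℕ) => ∑ j ∈ Finset.range i, sc j Y + e 0) :=
    (UF.fsum (Finset.range i) (F := fun j Y _ => sc j Y) (fun j _ => wuf_sc j)).add (UF.var 0)
  exact (UP.at' (fun a : A4 => bb a = true) h).congr fun _ _ => Iff.rfl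

private theorem wuf_pw {f : List A4 → ℕ} (hf : UF (fun Y _ => f Y)) :
    UF (fun Y _ => pw Y (f Y)) := by
  unfold pw
  exact wuf_cnt (P := fun Y i => Nat.log 2 i < f Y) UF.len (UP.lt (UF.log2 (UF.var 0)) hf)

theorem up_BaseY (k : ℕ) : UP (fun Y _ => BaseY k Y) := by
  unfold BaseY
  have hlog : UF (fun (Y : List A4) (_ : ℕ → ℕ) => Nat.log 2 (sc 0 Y)) := UF.log2 (wuf_sc 0)
  have h1 : UF (fun (Y : List A4) (_ : ℕ → ℕ) => pw Y (Nat.log 2 (sc 0 Y) ^ k)) :=
    wuf_pw (hlog.pow k)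
  have h2 : UF (fun (Y : List A4) (_ : ℕ → ℕ) => pw Y (Nat.log 2 (sc 0 Y) ^ (k + 2))) :=
    wuf_pw (hlog.pow (k + 2))
  refine (UP.le ((hlog.add (UF.const 2)).pow (k + 4)) (UF.log2 (wuf_sc 1))).and ?_
  exact wup_base (wuf_sc 0) h1 (hlog.pow (k + 2)) h2 (wup_bit 0) (wup_bit 1) (wup_bit 2)
    ((wup_bit 2).comp₁ (h2.add (UF.var 0))) (wup_bit 3) ((wup_bit 3).comp₁ (h1.add (UF.var 0)))
    (wup_bit 4)

end Pool.Agent.BookAv
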