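import Pool.Agent.BookAv.QE
import Pool.Agent.BookAv.OfUP
import Pool.Agent.BookAv.WordsUP
import Pool.Agent.BookAv.WordsEval
import Pool.Agent.BookAv.Code
import Pool.Agent.BookAv.Congr
import Pool.Agent.BookAv.Exist
import Pool.Agent.BookAv.Count
import Pool.Agent.BookAv.First
import Pool.Agent.BookAv.Sizes

/-!
# The hard language
-/

set_option autoImplicit false

namespace Pool.Agent.BookAv

open Filter Topology Pool.Agent.PT Pool.Agent.Book19 Pool.Agent.BookPL

theorem ltT_congr {m : ℕ} {T T₁ R R₁ : ℕ → Prop} (hT : ∀ v < m, (T v ↔ T₁ v))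
    (hR : ∀ v < m, (R v ↔ R₁ v)) (h : ltT m T R) : ltT m T₁ R₁ := by
  obtain ⟨i, hi, h1, h2, h3⟩ := h
  refine ⟨i, hi, fun h => h1 ((hT i hi).2 h), (hR i hi).1 h2, fun j hj => ?_⟩
  rw [← hT j (hj.trans hi), ← hR j (hj.trans hi)]
  exact h3 j hj

theorem cnt_congr {m : ℕ} {P Q : ℕ → Prop} (h : ∀ v < m, (P v ↔ Q v)) : cnt m P = cnt m Q := by
  classical
  unfold cnt
  refine Finset.sum_congr rfl fun v hv => ?_
  rw [Finset.mem_range] at hv
  by_cases h1 : P v
  · rw [if_pos h1, if_pos ((h v hv).1 h1)]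
  · rw [if_neg h1, if_neg fun h2 => h1 ((h v hv).2 h2)]

theorem sbad_congr {n s ℓ m : ℕ} {T T' : ℕ → Prop} (h : ∀ v < m, (T v ↔ T' v))
    (hb : SBad n s ℓ m T) : SBad n s ℓ m T' := by
  obtain ⟨C, y, hC⟩ := hb
  refine ⟨C, y, ?_⟩
  rw [← cnt_congr (P := fun v => (T v ↔ C.Acc (mix ℓ v y))) fun v hv => by rw [h v hv]]
  exact hC

section

variable (H : ∀ (A : Type) [Fintype A] (L : Set (List A)), InNPc A L → InPL A L)

include H in
/-- Universal quantifiers. -/
theorem qa {A : Type} [Fintype A] [Inhabited A] {S : Set (List (A ⊕ Bool))} (hS : InPL _ S)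
    (c : ℕ) : InPL A {u | ∀ w : List Bool, Nat.log 2 w.length < (Nat.log 2 u.length + 2) ^ c →
      u.map Sum.inl ++ w.map Sum.inr ∈ S} := by
  have h := (qe H hS.compl c).compl
  have e : {u : List A | ∀ w : List Bool, Nat.log 2 w.length < (Nat.log 2 u.length + 2) ^ c →
      u.map Sum.inl ++ w.map Sum.inr ∈ S} = {x | x ∉ {u : List A | ∃ w : List Bool,
      Nat.log 2 w.length < (Nat.log 2 u.length + 2) ^ c ∧
      u.map Sum.inl ++ w.map Sum.inr ∈ {x | x ∉ S}}} := by
    ext u
    constructor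
    · rintro h ⟨w, hw, hS⟩
      exact hS (h w hw)
    · intro h w hw
      by_contra hcon
      exact h ⟨w, hw, hcon⟩
  rw [e]
  exact h

/-- The bound for the lengths. -/
def okL {A : Type} (k : ℕ) (u : List A) (w : List Bool) : Prop :=
  Nat.log 2 w.length < (Nat.log 2 u.length + 2) ^ (k + 5)

/-- The hard language. -/
def hardL (k : ℕ) : Set (List Bool) :=
  {x | ∃ t : List Bool, okL k x t ∧
    (x.map Sum.inl ++ t.map Sum.inr) ∈ {u₂ : List (Bool ⊕ Bool) | ∀ w₂ : List Bool, okL k u₂ w₂ →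
      (u₂.map Sum.inl ++ w₂.map Sum.inr) ∈ {u₃ : List ((Bool ⊕ Bool) ⊕ Bool) | ∃ w₃ : List Bool,
        okL k u₃ w₃ ∧ (u₃.map Sum.inl ++ w₃.map Sum.inr) ∈
          {u₄ : List (((Bool ⊕ Bool) ⊕ Bool) ⊕ Bool) | ∀ w₄ : List Bool, okL k u₄ w₄ →
            (u₄.map Sum.inl ++ w₄.map Sum.inr) ∈ {Y : List A4 | BaseY k Y}}}}}

include H in
theorem hardL_inPL (k : ℕ) : InPL Bool (hardL k) := by
  have h4 : InPL A4 {Y : List A4 | BaseY k Y} := inPL_of_UP (up_BaseY k)
  exact qe H (qa H (qe H (qa H h4 (k + 5)) (k + 5)) (k + 5)) (k + 5)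

end

/-- Two functions in one word. -/
theorem exists_word₂ (P Q : ℕ → Prop) (a b : ℕ) :
    ∃ w : List Bool, w.length = a + b ∧ (∀ p < a, (bt w p ↔ P p)) ∧
      ∀ p < b, (bt w (a + p) ↔ Q p) := by
  classical
  obtain ⟨w, hw, h⟩ := exists_word (fun p => if p < a then P p else Q (p - a)) (a + b)
  refine ⟨w, hw, fun p hp => ?_, fun p hp => ?_⟩
  · rw [h p (by omega), if_pos hp]
  · rw [h (a + p) (by omega), if_neg (by omega), Nat.add_sub_cancel_left]

theorem mem_hardL (k : ℕ) (x : List Bool) (hx : 2 ≤ x.length) (hell : ell k x.length ≤ x.length)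
    (T : ℕ → Prop) (hT : ¬ SBad x.length (sz k x.length) (ell k x.length) (tm k x.length) T)
    (hmin : ∀ T', ltT (tm k x.length) T' T →
      SBad x.length (sz k x.length) (ell k x.length) (tm k x.length) T') :
    x ∈ hardL k ↔ ∃ v < tm k x.length,
      (∀ j < ell k x.length, (v.testBit j = true ↔ bt x j)) ∧ T v := by
  set n := x.length with hn
  set s := sz k n with hs
  set ℓ := ell k n with hℓ
  set m := tm k n with hm
  set α := 2 * s * (n + s) + n + m + m * s with hα
  obtain ⟨l1, l2, l3, l4, l5⟩ := lengths k n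
  rw [← hm] at l1
  rw [← hs, ← hm] at l3 l4
  rw [← hs] at l5
  -- membership in terms of the kernel
  have hmem : x ∈ hardL k ↔ ∃ t : List Bool, okL k x t ∧
      ∀ w₂ : List Bool, okL k (x.map Sum.inl ++ t.map Sum.inr : List (Bool ⊕ Bool)) w₂ →
      ∃ w₃ : List Bool, okL k ((x.map Sum.inl ++ t.map Sum.inr).map Sum.inl ++ w₂.map Sum.inr :
        List ((Bool ⊕ Bool) ⊕ Bool)) w₃ ∧
      ∀ w₄ : List Bool, okL k (((x.map Sum.inl ++ t.map Sum.inr).map Sum.inl ++
        w₂.map Sum.inr).map Sum.inl ++ w₃.map Sum.inr : List (((Bool ⊕ Bool) ⊕ Bool) ⊕ Bool)) w₄ →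
      ((Nat.log 2 n + 2) ^ (k + 4) ≤ Nat.log 2 t.length ∧
        base n s ℓ m (bt x) (bt t) (bt w₂) (fun p => bt w₂ (m + p)) (bt w₃)
          (fun p => bt w₃ (s + p)) (bt w₄)) := by
    refine exists_congr fun t => and_congr Iff.rfl (forall_congr' fun w₂ => imp_congr Iff.rfl
      (exists_congr fun w₃ => and_congr Iff.rfl (forall_congr' fun w₄ => imp_congr Iff.rfl ?_)))
    exact BaseY_enc4 k x t w₂ w₃ w₄ hx
  have hok : ∀ {A : Type} (u : List A) (w : List Bool) (hu : n ≤ u.length) (_ : w.length = 0),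
      okL k u w := by
    intro A u w _ hw
    unfold okL
    rw [hw, Nat.log_zero_right]
    positivity
  rw [hmem]
  constructor
  · rintro ⟨t, ht, h⟩
    -- the truth table given by `t` is good
    have hgood : ¬ SBad n s ℓ m (bt t) := by
      intro hbad
      obtain ⟨A, hA⟩ := (sbad_iff n s ℓ m hell _).1 hbad
      obtain ⟨w₂, hw₂, h1, h2⟩ := exists_word₂ (bt t) A m α
      obtain ⟨w₃, -, h3⟩ := h w₂ (by
        unfold okL
        rw [hw₂]
        refine l3 _ ?_
        simp only [List.length_append, List.length_map]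
        omega)
      have h4 := (h3 [] (hok _ _ (by simp only [List.length_append, List.length_map]; omega)
        rfl)).2.2.1
      exact h4 ((beta_congr n s ℓ m (fun p _ => Iff.rfl) (fun p hp => (h2 p hp).symm)
        (fun p _ => Iff.rfl)).1 (hA (bt w₃)))
    -- the smaller ones are bad
    have hbad : ∀ T', ltT m T' (bt t) → SBad n s ℓ m T' := by
      intro T' hlt
      obtain ⟨w₂, hw₂, h1, h2⟩ := exists_word₂ T' (fun _ => False) m α
      obtain ⟨w₃, -, h3⟩ := h w₂ (by
        unfold okL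
        rw [hw₂]
        refine l3 _ ?_
        simp only [List.length_append, List.length_map]
        omega)
      refine (sbad_iff n s ℓ m hell _).2 ⟨fun p => bt w₃ (s + p), fun W => ?_⟩
      obtain ⟨w₄, hw₄, h4⟩ := exists_word W s
      have h5 := (h3 w₄ (by
        unfold okL
        rw [hw₄]
        refine l5 _ ?_
        simp only [List.length_append, List.length_map]
        omega)).2.2.2 (ltT_congr (fun v hv => (h1 v hv).symm) (fun v _ => Iff.rfl) hlt)
      exact (beta_congr n s ℓ m h1 (fun p _ => Iff.rfl) h4).1 h5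
    have heq : ∀ v < m, (bt t v ↔ T v) := by
      rcases ltT_trich m (bt t) T with h1 | h1 | h1
      · exact h1
      · exact absurd (hmin _ h1) hgood
      · exact absurd (hbad _ h1) hT
    obtain ⟨w₃, -, h3⟩ := h [] (hok _ _ (by simp only [List.length_append, List.length_map]; omega)
      rfl)
    obtain ⟨v, hv, h4, h5⟩ := (h3 [] (hok _ _ (by
      simp only [List.length_append, List.length_map]; omega) rfl)).2.1
    exact ⟨v, hv, h4, (heq v hv).1 h5⟩
  · rintro ⟨v, hv, h4, h5⟩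
    obtain ⟨t, ht, h6⟩ := exists_word T (2 ^ (Nat.log 2 n + 2) ^ (k + 4))
    have h6' : ∀ p < m, (bt t p ↔ T p) := fun p hp => h6 p (lt_of_lt_of_le hp l1)
    refine ⟨t, ?_, fun w₂ _ => ?_⟩
    · unfold okL
      rw [ht]
      exact l2 _ le_rfl
    · obtain ⟨W, hW⟩ : ∃ W, ¬ beta n s ℓ m T (fun p => bt w₂ (m + p)) W := by
        by_contra hcon
        push Not at hcon
        exact hT ((sbad_iff n s ℓ m hell _).2 ⟨_, hcon⟩)
      obtain ⟨A', hA'⟩ : ∃ A' : ℕ → Prop, ltT m (bt w₂) T → ∀ W', beta n s ℓ m (bt w₂) A' W' := by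
        by_cases hlt : ltT m (bt w₂) T
        · obtain ⟨A', hA'⟩ := (sbad_iff n s ℓ m hell _).1 (hmin _ hlt)
          exact ⟨A', fun _ => hA'⟩
        · exact ⟨fun _ => False, fun h => absurd h hlt⟩
      obtain ⟨w₃, hw₃, h1, h2⟩ := exists_word₂ W A' s α
      refine ⟨w₃, ?_, fun w₄ _ => ⟨?_, ⟨v, hv, h4, (h6' v hv).2 h5⟩, fun hb => hW ?_, fun hlt => ?_⟩⟩
      · unfold okL
        rw [hw₃]
        refine l4 _ ?_
        simp only [List.length_append, List.length_map]
        omega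
      · rw [ht, Nat.log_pow (by norm_num)]
      · exact (beta_congr n s ℓ m h6' (fun p _ => Iff.rfl) h1).1 hb
      · exact (beta_congr n s ℓ m (fun p _ => Iff.rfl) h2 (fun p _ => Iff.rfl)).2
          (hA' (ltT_congr (fun v _ => Iff.rfl) h6' hlt) (bt w₄))

theorem core (k : ℕ) : ¬ ((∀ (A : Type) [Fintype A] (L : Set (List A)), InNPc A L → InPL A L) ∧
    ∀ L : Set (List Bool), InPL Bool L → Predictable k L) := by
  rintro ⟨H, hP⟩
  obtain ⟨n, ⟨C, hC⟩, hn, hell, hsz⟩ := ((hP _ (hardL_inPL H k)).and_eventually (sizes k)).exists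
  have hs : 0 < sz k n := by unfold sz; positivity
  obtain ⟨T, hT, hmin⟩ := exists_first (tm k n)
    (fun T => ¬ SBad n (sz k n) (ell k n) (tm k n) T)
    (fun T T' h hT hb => hT (sbad_congr (fun v hv => (h v hv).symm) hb))
    (exists_good n (sz k n) (ell k n) (tm k n) hs hsz)
  have hL : ∀ x : Fin n → Bool, List.ofFn x ∈ hardL k ↔
      ∃ v < 2 ^ ell k n, (∀ j < ell k n, (v.testBit j = true ↔ bt (List.ofFn x) j)) ∧ T v := by
    intro x
    have hlen : (List.ofFn x).length = n := List.length_ofFn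
    have h := mem_hardL k (List.ofFn x) (by rw [hlen]; exact hn) (by rw [hlen]; exact hell) T
      (by rw [hlen]; exact hT) (by
        rw [hlen]
        intro T' hlt
        exact not_not.1 (hmin T' hlt))
    rw [h, hlen]
    rfl
  have h1 := agree_le n (sz k n) (ell k n) hs hell T hT (hardL k) hL C
  exact absurd hC (not_lt.2 h1)

end Pool.Agent.BookAv
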