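import Pool.Agent.BookAv.Circ
import Pool.Agent.BookPL.Comap
import Pool.Agent.BookPL.Log2

/-!
# The kernel of the definition of the hard language
-/

set_option autoImplicit false

namespace Pool.Agent.BookAv

open Filter Topology Pool.Agent.PT Pool.Agent.Book19 Pool.Agent.BookPL

/-! ### The truth tables -/

/-- Logarithm of the size of the truth tables. -/
def ell (k n : ℕ) : ℕ := Nat.log 2 n ^ (k + 2)

/-- The size of the truth tables. -/
def tm (k n : ℕ) : ℕ := 2 ^ ell k n

open Classical in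
/-- The number of `v < m` with `P v`. -/
noncomputable def cnt (m : ℕ) (P : ℕ → Prop) : ℕ := ∑ v ∈ Finset.range m, if P v then 1 else 0

/-- The word of length `n` which starts with the first `ℓ` digits of `v` and continues with `y`. -/
def mix {n : ℕ} (ℓ v : ℕ) (y : Fin n → Bool) : Fin n → Bool :=
  fun u => if (u : ℕ) < ℓ then v.testBit u else y u

/-- Some circuit of size `s`, with some fixed last `n - ℓ` inputs, agrees with the truth table
`T` of length `m = 2 ^ ℓ` in more than `m / 2 + m / s` places. -/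
def SBad (n s ℓ m : ℕ) (T : ℕ → Prop) : Prop :=
  ∃ (C : NCirc n s) (y : Fin n → Bool),
    m * (s + 2) < 2 * s * cnt m (fun v => (T v ↔ C.Acc (mix ℓ v y)))

/-! ### The same with words coding everything -/

/-- The value of the variable `u`. -/
def Val (n s ℓ : ℕ) (A : ℕ → Prop) (v : ℕ) (W : ℕ → Prop) (u : ℕ) : Prop :=
  (u < ℓ ∧ v.testBit u = true) ∨ (ℓ ≤ u ∧ u < n ∧ A (2 * s * (n + s) + u)) ∨
    (ℓ ≤ u ∧ n ≤ u ∧ W (u - n))

/-- The assignment satisfies all the clauses given by `A`. -/
def phi (n s ℓ : ℕ) (A : ℕ → Prop) (v : ℕ) (W : ℕ → Prop) : Prop :=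
  ∀ i < s, ∃ u < n + s, (Val n s ℓ A v W u ∧ A ((i * (n + s) + u) * 2 + 1)) ∨
    (¬ Val n s ℓ A v W u ∧ A ((i * (n + s) + u) * 2))

/-- `A` codes a circuit, the fixed inputs, a set `J` of places and satisfying assignments for the
places in `J` with `T v`; `W` is an assignment. -/
def beta (n s ℓ m : ℕ) (T A W : ℕ → Prop) : Prop :=
  m * (s + 2) < 2 * s * cnt m (fun v => A (2 * s * (n + s) + n + v)) ∧
  ∀ v < m, A (2 * s * (n + s) + n + v) →
    (T v → phi n s ℓ A v (fun j => A (2 * s * (n + s) + n + m + (v * s + j)))) ∧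
    (¬ T v → ¬ phi n s ℓ A v W)

/-- The lexicographic order of the truth tables. -/
def ltT (m : ℕ) (T' T : ℕ → Prop) : Prop :=
  ∃ i < m, ¬ T' i ∧ T i ∧ ∀ j < i, (T' j ↔ T j)

/-- The kernel of the definition of the hard language. -/
def base (n s ℓ m : ℕ) (X T T' A W A' W' : ℕ → Prop) : Prop :=
  (∃ v < m, (∀ j < ℓ, (v.testBit j = true ↔ X j)) ∧ T v) ∧ ¬ beta n s ℓ m T A W ∧
    (ltT m T' T → beta n s ℓ m T' A' W')

/-- The bits of a word. -/
def bt (w : List Bool) (p : ℕ) : Prop := w[p]? = some true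

end Pool.Agent.BookAv
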