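import Pool.Agent.BookAv.QERun

/-!
# Completeness of the certificates
-/

set_option autoImplicit false

namespace Pool.Agent.BookAv

open Pool.Agent.PT Pool.Agent.Book19 Pool.Agent.BookPL

variable {A : Type} [Fintype A] [Inhabited A] (M : OTM (A ⊕ Bool))

private lemma cnt_eq {N : ℕ} {P : ℕ → Prop} {b : ℕ} (hb : b ≤ N)
    (h : ∀ v < N, (P v ↔ v < b)) : cnt N P = b := by
  classical
  unfold cnt
  have h1 : ∑ v ∈ Finset.range N, (if P v then 1 else 0) =
      ∑ v ∈ Finset.range N, (if v < b then 1 else 0) := by
    refine Finset.sum_congr rfl fun v hv => ?_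
    rw [Finset.mem_range] at hv
    by_cases hp : P v
    · rw [if_pos hp, if_pos ((h v hv).1 hp)]
    · rw [if_neg hp, if_neg fun h' => hp ((h v hv).2 h')]
  have h2 : ∑ v ∈ Finset.range N, (if v < b then 1 else 0) = b := by
    rw [← Finset.card_filter]
    have h3 : (Finset.range N).filter (fun v => v < b) = Finset.range b := by
      ext v
      simp only [Finset.mem_filter, Finset.mem_range]
      omega
    rw [h3, Finset.card_range]
  calc _ = ∑ v ∈ Finset.range N, (if P v then 1 else 0) := by
        refine Finset.sum_congr rfl fun v _ => ?_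
        by_cases hp : P v
        · simp [hp]
        · simp [hp]
    _ = b := by rw [h1, h2]

section cert

/-- the bits of the certificate -/
private noncomputable def cbit (w : List Bool) (N m : ℕ) (E : ℕ → ℕ → ℕ) (p : ℕ) : Bool :=
  open Classical in
  if p < N then decide (p < w.length)
  else if p < 2 * N then decide (w[p - N]? = some true)
  else decide ((p - 2 * N) % N < E ((p - 2 * N) / N / m) ((p - 2 * N) / N % m))

private noncomputable def cert (w : List Bool) (N m L : ℕ) (E : ℕ → ℕ → ℕ) : List Bool :=
  (List.range L).map (cbit w N m E)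

private noncomputable def cY (u : List A) (w : List Bool) (N m L : ℕ) (E : ℕ → ℕ → ℕ) :
    List (Option A ⊕ Bool) :=
  (padU u N).map Sum.inl ++ (cert w N m L E).map Sum.inr

omit [Fintype A] [Inhabited A] in
private lemma padU_length (u : List A) (N : ℕ) (hN : u.length ≤ N) : (padU u N).length = N := by
  unfold padU
  rw [List.length_append, List.length_map, List.length_replicate]
  omega

variable (u : List A) (w : List Bool) (N m L : ℕ) (E : ℕ → ℕ → ℕ)

omit [Fintype A] [Inhabited A] in
private lemma nN_cY (hN : u.length ≤ N) : nN (cY u w N m L E) = N := by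
  unfold nN cY
  rw [List.countP_append, List.countP_map, List.countP_map]
  have h1 : List.countP ((fun a : Option A ⊕ Bool => a.isLeft) ∘ Sum.inl) (padU u N) =
      (padU u N).length := by
    rw [List.countP_eq_length]
    intro a _
    rfl
  have h2 : List.countP ((fun a : Option A ⊕ Bool => a.isLeft) ∘ Sum.inr) (cert w N m L E) = 0 := by
    rw [List.countP_eq_zero]
    intro a _
    simp
  rw [h1, h2, padU_length u N hN, add_zero]

omit [Fintype A] [Inhabited A] in
private lemma nU_cY : nU (cY u w N m L E) = u.length := by
  unfold nU cY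
  rw [List.countP_append, List.countP_map, List.countP_map]
  have h2 : List.countP ((fun a : Option A ⊕ Bool => Sum.elim Option.isSome (fun _ => false) a) ∘
      Sum.inr) (cert w N m L E) = 0 := by
    rw [List.countP_eq_zero]
    intro a _
    simp
  rw [h2, add_zero]
  unfold padU
  rw [List.countP_append, List.countP_map]
  have h3 : List.countP (((fun a : Option A ⊕ Bool => Sum.elim Option.isSome (fun _ => false) a) ∘
      Sum.inl) ∘ some) u = u.length := by
    rw [List.countP_eq_length]
    intro a _
    rfl
  have h4 : List.countP ((fun a : Option A ⊕ Bool => Sum.elim Option.isSome (fun _ => false) a) ∘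
      Sum.inl) (List.replicate (N - u.length) none) = 0 := by
    rw [List.countP_eq_zero]
    intro a ha
    rw [List.eq_of_mem_replicate ha]
    simp
  rw [h3, h4, add_zero]

omit [Fintype A] [Inhabited A] in
private lemma bY_cY (hN : u.length ≤ N) (p : ℕ) :
    bY (cY u w N m L E) p ↔ p < L ∧ cbit w N m E p = true := by
  unfold bY
  rw [nN_cY u w N m L E hN]
  unfold cY
  rw [List.getElem?_append_right (by rw [List.length_map, padU_length u N hN]; omega),
    List.length_map, padU_length u N hN, Nat.add_sub_cancel_left, List.getElem?_map]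
  unfold cert
  rw [List.getElem?_map]
  by_cases hp : p < L
  · rw [List.getElem?_range hp]
    simp [hp]
  · rw [List.getElem?_eq_none (by rw [List.length_range]; omega)]
    simp [hp]

omit [Fintype A] [Inhabited A] in
private lemma lw_cY (hN : u.length ≤ N) (hwN : w.length ≤ N) (hL : 2 * N ≤ L) :
    lw (cY u w N m L E) = w.length := by
  unfold lw
  rw [nN_cY u w N m L E hN]
  refine cnt_eq hwN fun v hv => ?_
  rw [bY_cY u w N m L E hN]
  unfold cbit
  rw [if_pos hv, decide_eq_true_iff]
  constructor
  · exact fun h => h.2
  · exact fun h => ⟨by omega, h⟩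

omit [Fintype A] in
private lemma letter_cY (hN : u.length ≤ N) (p : ℕ) (hp : p < u.length) :
    letter (cY u w N m L E) p = u[p] := by
  have h1 : (cY u w N m L E)[p]? = some (Sum.inl (some u[p])) := by
    unfold cY
    rw [List.getElem?_append_left (by rw [List.length_map, padU_length u N hN]; omega),
      List.getElem?_map]
    unfold padU
    rw [List.getElem?_append_left (by rw [List.length_map]; exact hp), List.getElem?_map,
      List.getElem?_eq_getElem hp]
    rfl
  unfold letter
  rw [h1]

omit [Fintype A] in
private lemma Zq_cY (hN : u.length ≤ N) (hwN : w.length ≤ N) (hL : 2 * N ≤ L) :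
    Zq (cY u w N m L E) = u.map Sum.inl ++ w.map Sum.inr := by
  apply List.ext_getElem
  · unfold Zq
    rw [List.length_map, List.length_range, nU_cY, lw_cY u w N m L E hN hwN hL,
      List.length_append, List.length_map, List.length_map]
  · intro p h1 h2
    rw [List.length_append, List.length_map, List.length_map] at h2
    unfold Zq
    rw [List.getElem_map, List.getElem_range]
    unfold ltZ
    rw [nU_cY]
    by_cases hp : p < u.length
    · rw [if_pos hp, letter_cY u w N m L E hN p hp,
        List.getElem_append_left (by rw [List.length_map]; exact hp), List.getElem_map]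
    · rw [if_neg hp, List.getElem_append_right (by rw [List.length_map]; omega),
        List.getElem_map]
      congr 1
      rw [nN_cY u w N m L E hN]
      have hq : p - u.length < w.length := by omega
      have hb := bY_cY u w N m L E hN (N + (p - u.length))
      have hc : cbit w N m E (N + (p - u.length)) = w[p - u.length] := by
        unfold cbit
        rw [if_neg (by omega), if_pos (by omega), Nat.add_sub_cancel_left,
          List.getElem?_eq_getElem hq]
        cases w[p - u.length] <;> simp
      rw [hc] at hb
      have hl : N + (p - u.length) < L := by omega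
      simp only [hl, true_and] at hb
      simp only [List.length_map]
      rw [Bool.eq_iff_iff]
      exact (@decide_eq_true_iff _ (Classical.propDecidable _)).trans hb

omit [Fintype A] [Inhabited A] in
private lemma dec_cY (hN : u.length ≤ N) (t : ℕ) (hL : L = 2 * N + (t + 2) * nE M * N)
    (hE : ∀ i ≤ t + 1, ∀ j, E i j ≤ N) (i j : ℕ) (hi : i ≤ t + 1) (hj : j < nE M) :
    dec M (cY u w N (nE M) L E) i j = E i j := by
  unfold dec
  rw [nN_cY u w N (nE M) L E hN]
  refine cnt_eq (hE i hi j) fun v hv => ?_
  rw [bY_cY u w N (nE M) L E hN]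
  have h1 : 2 * N + ((i * nE M + j) * N + v) < L := by
    rw [hL]
    have h2 : (i * nE M + j + 1) * N ≤ (t + 2) * nE M * N := by
      refine Nat.mul_le_mul_right _ ?_
      have h3 : (i + 1) * nE M ≤ (t + 2) * nE M := Nat.mul_le_mul_right _ (by omega)
      have h4 : (i + 1) * nE M = i * nE M + nE M := by ring
      omega
    have h5 : (i * nE M + j + 1) * N = (i * nE M + j) * N + N := by ring
    omega
  have h6 : cbit w N (nE M) E (2 * N + ((i * nE M + j) * N + v)) = true ↔ v < E i j := by
    unfold cbit
    have hNp : 0 < N := by omega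
    rw [if_neg (by omega), if_neg (by omega), Nat.add_sub_cancel_left, decide_eq_true_iff]
    have h7 : ((i * nE M + j) * N + v) % N = v := by
      rw [Nat.mul_add_mod', Nat.mod_eq_of_lt hv]
    have h8 : ((i * nE M + j) * N + v) / N = i * nE M + j := by
      rw [mul_comm, Nat.mul_add_div hNp, Nat.div_eq_of_lt hv, add_zero]
    have h9 : (i * nE M + j) % nE M = j := by
      rw [Nat.mul_add_mod', Nat.mod_eq_of_lt hj]
    have h10 : (i * nE M + j) / nE M = i := by
      rw [mul_comm, Nat.mul_add_div (by omega), Nat.div_eq_of_lt hj, add_zero]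
    rw [h7, h8, h9, h10]
  rw [h6]
  exact ⟨fun h => h.2, fun h => ⟨h1, h⟩⟩

end cert

/-- If there is a word `w`, then there is a right certificate for `u` padded to a large length. -/
theorem bq_complete (c : ℕ) (u : List A) (w : List Bool) (N : ℕ) (hN : u.length ≤ N)
    (hw : Nat.log 2 w.length < (Nat.log 2 u.length + 2) ^ c) (hwN : w.length ≤ N)
    (t Sp : ℕ) (hg : M.Gives (u.map Sum.inl ++ w.map Sum.inr) t true)
    (hs : M.Space (u.map Sum.inl ++ w.map Sum.inr) t Sp)
    (hb : bnd M (u.length + w.length) Sp ≤ N) : padU u N ∈ BQ M c := by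
  set y : List (A ⊕ Bool) := u.map Sum.inl ++ w.map Sum.inr with hy
  have hyl : y.length = u.length + w.length := by
    rw [hy, List.length_append, List.length_map, List.length_map]
  set E : ℕ → ℕ → ℕ := fun i => (vstep (nE M) (simF M (fun _ : List Unit => y)) [])^[i] e₀ with hE
  obtain ⟨r1, r2, r3, r4⟩ := sim_run M (fun _ : List Unit => y) [] t Sp true hg hs
  have hEN : ∀ i ≤ t + 1, ∀ j, E i j ≤ N := by
    intro i hi j
    refine (r4 i hi j).trans ?_
    rw [hyl]
    exact hb
  have ht : t < N ^ nE M := by
    refine (time_le M y t Sp true hg hs).trans_le ?_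
    rw [hyl]
    exact Nat.pow_le_pow_left hb _
  set L : ℕ := 2 * N + (t + 2) * nE M * N with hL
  have hL2 : 2 * N ≤ L := by omega
  set Y : List (Option A ⊕ Bool) := cY u w N (nE M) L E with hYd
  have hZ : Zq Y = y := Zq_cY u w N (nE M) L E hN hwN hL2
  have hE0 : ∀ i j, nE M ≤ j → E i j = 0 := by
    intro i j hj
    have h4 : 4 ≤ nE M := by
      unfold nE
      omega
    cases i with
    | zero =>
      show e₀ j = 0
      unfold e₀
      rw [if_neg (by omega)]
    | succ i =>
      rw [hE]
      beta_reduce
      rw [Function.iterate_succ_apply']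
      unfold vstep
      rw [if_neg (by omega)]
  have hEY : ∀ i ≤ t + 1, EY M Y i = E i := by
    intro i hi
    funext j
    unfold EY
    by_cases hj : j < nE M
    · rw [if_pos hj]
      exact dec_cY M u w N L E hN t hL hEN i j hi hj
    · rw [if_neg hj, hE0 i j (by omega)]
  refine ⟨cert w N (nE M) L E, ?_, ?_⟩
  · rw [padU_length u N hN]
    unfold cert
    rw [List.length_map, List.length_range, hL]
    have h1 : (t + 2) * nE M * N ≤ (N ^ nE M + 1) * nE M * N :=
      Nat.mul_le_mul_right _ (Nat.mul_le_mul_right _ (by omega))
    omega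
  · show RY M c Y
    unfold RY
    rw [lw_cY u w N (nE M) L E hN hwN hL2, nU_cY, nN_cY u w N (nE M) L E hN]
    refine ⟨hw, t + 1, by omega, ?_, ?_, ?_, ?_⟩
    · intro j _
      rw [hEY 0 (by omega)]
      rfl
    · intro i hi
      rw [hEY i (by omega), hEY (i + 1) (by omega)]
      refine ⟨r1 i (by omega), fun j hj => ?_⟩
      have h1 : E (i + 1) j = simF M (fun _ : List Unit => y) j [] (E i) := by
        rw [hE]
        beta_reduce
        rw [Function.iterate_succ_apply']
        unfold vstep
        rw [if_pos hj]
      rw [h1]
      unfold simF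
      rw [hZ]
    · rw [hEY (t + 1) le_rfl]
      exact r2
    · rw [hEY (t + 1) le_rfl]
      exact r3.2 rfl

end Pool.Agent.BookAv
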