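import Pool.Agent.BookAv.QERun

/-!
# The padded words in `BQ`
-/

set_option autoImplicit false

namespace Pool.Agent.BookAv

open Pool.Agent.PT Pool.Agent.Book19 Pool.Agent.BookPL

section words

variable {A : Type}

theorem qs_length (u : List A) (N : ℕ) (hN : u.length ≤ N) : (padU u N).length = N := by
  unfold padU
  simp
  omega

theorem qs_nN (z : List (Option A)) (w : List Bool) :
    nN (z.map Sum.inl ++ w.map Sum.inr) = z.length := by
  unfold nN
  rw [List.countP_append, List.countP_map, List.countP_map]
  have h1 : List.countP ((fun a : Option A ⊕ Bool => a.isLeft) ∘ Sum.inl) z = z.length := by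
    rw [List.countP_eq_length]
    intro a _
    rfl
  have h2 : List.countP ((fun a : Option A ⊕ Bool => a.isLeft) ∘ Sum.inr) w = 0 := by
    rw [List.countP_eq_zero]
    intro a _
    simp
  rw [h1, h2, add_zero]

theorem qs_nU (u : List A) (N : ℕ) (w : List Bool) :
    nU ((padU u N).map Sum.inl ++ w.map Sum.inr) = u.length := by
  unfold nU padU
  rw [List.countP_append, List.countP_map, List.countP_map, List.countP_append, List.countP_map]
  have h1 : List.countP (((fun a : Option A ⊕ Bool => Sum.elim Option.isSome (fun _ => false) a) ∘
      Sum.inl) ∘ some) u = u.length := by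
    rw [List.countP_eq_length]
    intro a _
    rfl
  have h2 : List.countP ((fun a : Option A ⊕ Bool => Sum.elim Option.isSome (fun _ => false) a) ∘
      Sum.inr) w = 0 := by
    rw [List.countP_eq_zero]
    intro a _
    simp
  have h3 : List.countP ((fun a : Option A ⊕ Bool => Sum.elim Option.isSome (fun _ => false) a) ∘
      Sum.inl) (List.replicate (N - u.length) (none : Option A)) = 0 := by
    rw [List.countP_eq_zero]
    intro a ha
    rw [List.eq_of_mem_replicate ha]
    simp
  rw [h1, h2, h3, add_zero, add_zero]

theorem qs_bY (z : List (Option A)) (w : List Bool) (p : ℕ) :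
    bY (z.map Sum.inl ++ w.map Sum.inr) p ↔ w[p]? = some true := by
  unfold bY
  rw [qs_nN, List.getElem?_append_right (by simp), List.length_map, Nat.add_sub_cancel_left,
    List.getElem?_map]
  rcases h : w[p]? with _ | b
  · simp
  · simp

theorem qs_letter [Inhabited A] (u : List A) (N : ℕ) (w : List Bool) (p : ℕ)
    (hp : p < u.length) :
    letter ((padU u N).map Sum.inl ++ w.map Sum.inr) p = u[p] := by
  have h1 : ((padU u N).map Sum.inl ++ w.map Sum.inr : List (Option A ⊕ Bool))[p]? =
      some (Sum.inl (some u[p])) := by
    unfold padU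
    rw [List.getElem?_append_left (by simp; omega), List.getElem?_map,
      List.getElem?_append_left (by simpa using hp), List.getElem?_map,
      List.getElem?_eq_getElem hp]
    rfl
  unfold letter
  rw [h1]

open Classical in
theorem qs_Zq [Inhabited A] (u : List A) (N : ℕ) (w : List Bool) :
    Zq ((padU u N).map Sum.inl ++ w.map Sum.inr) =
      u.map Sum.inl ++ ((List.range (lw ((padU u N).map Sum.inl ++ w.map Sum.inr))).map
        (fun p => decide (bY ((padU u N).map Sum.inl ++ w.map Sum.inr)
          (nN ((padU u N).map Sum.inl ++ w.map Sum.inr) + p)))).map Sum.inr := by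
  set Y : List (Option A ⊕ Bool) := (padU u N).map Sum.inl ++ w.map Sum.inr with hY
  have hU : nU Y = u.length := qs_nU u N w
  unfold Zq
  apply List.ext_getElem
  · simp [hU]
  · intro i h1 h2
    rw [List.getElem_map, List.getElem_range]
    unfold ltZ
    rw [hU]
    by_cases hi : i < u.length
    · rw [if_pos hi, List.getElem_append_left (by simpa using hi), List.getElem_map, hY,
        qs_letter u N w i hi]
    · rw [if_neg hi, List.getElem_append_right (by simpa using hi)]
      simp

end words

variable {A : Type} [Fintype A] [Inhabited A] (M : OTM (A ⊕ Bool))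

/-- If there is a right certificate for the padded word then there is a word `w`. -/
theorem bq_sound (S : Set (List (A ⊕ Bool)))
    (hM : ∀ y : List (A ⊕ Bool), ∃ (t : ℕ) (b : Bool) (Sp : ℕ), M.Gives y t b ∧ M.Space y t Sp ∧
      (y ∈ S ↔ b = true)) (c : ℕ) (u : List A) (N : ℕ) (hN : u.length ≤ N)
    (h : padU u N ∈ BQ M c) :
    ∃ w : List Bool, Nat.log 2 w.length < (Nat.log 2 u.length + 2) ^ c ∧
      u.map Sum.inl ++ w.map Sum.inr ∈ S := by
  classical
  obtain ⟨cert, -, hlen, T, -, h0, hstep, hT0, hT1⟩ := h
  have hZ := qs_Zq u N cert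
  have hU := qs_nU u N cert
  set Y : List (Option A ⊕ Bool) := (padU u N).map Sum.inl ++ cert.map Sum.inr with hY
  refine ⟨(List.range (lw Y)).map (fun p => decide (bY Y (nN Y + p))), ?_, ?_⟩
  · rw [List.length_map, List.length_range]
    rw [hU] at hlen
    exact hlen
  · rw [← hZ]
    obtain ⟨t, b, Sp, hg, hs, hb⟩ := hM (Zq Y)
    obtain ⟨r1, r2, r3, -⟩ := sim_run M Zq Y t Sp b hg hs
    have hE : ∀ i ≤ T, EY M Y i = (vstep (nE M) (simF M Zq) Y)^[i] e₀ := by
      intro i
      induction i with
      | zero =>
        intro _
        funext j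
        rw [Function.iterate_zero, id_eq]
        by_cases hj : j < nE M
        · exact h0 j hj
        · have h4 : nE M = 4 + 3 * M.k := rfl
          have hj0 : j ≠ 0 := by omega
          simp [EY, e₀, hj, hj0]
      | succ i ih =>
        intro hi
        rw [Function.iterate_succ_apply', ← ih (by omega)]
        funext j
        by_cases hj : j < nE M
        · rw [(hstep i (by omega)).2 j hj]
          simp [vstep, hj]
        · simp [EY, vstep, hj]
    have hTt : T = t + 1 := by
      rcases Nat.lt_trichotomy T (t + 1) with h | h | h
      · exfalso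
        apply r1 T (by omega)
        rw [← hE T le_rfl]
        exact hT0
      · exact h
      · exfalso
        apply (hstep (t + 1) h).1
        rw [hE (t + 1) h.le]
        exact r2
    rw [hb]
    rw [← r3, ← hTt, ← hE T le_rfl]
    exact hT1

end Pool.Agent.BookAv
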