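import Pool.Agent.BookAv.QEUP
import Pool.Agent.BookAv.QESound
import Pool.Agent.BookAv.QEComp

/-!
# Elimination of quantifiers in POLYLOGSPACE, if NP is contained in POLYLOGSPACE
-/

set_option autoImplicit false

namespace Pool.Agent.BookAv

open Pool.Agent.PT Pool.Agent.Book19 Pool.Agent.BookPL

/-- Quantifiers over words of quasi-polynomial length do not lead out of POLYLOGSPACE. -/
theorem qe (H : ∀ (A : Type) [Fintype A] (L : Set (List A)), InNPc A L → InPL A L) {A : Type}
    [Fintype A] [Inhabited A] {S : Set (List (A ⊕ Bool))} (hS : InPL _ S) (c : ℕ) :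
    InPL A {u | ∃ w : List Bool, Nat.log 2 w.length < (Nat.log 2 u.length + 2) ^ c ∧
      u.map Sum.inl ++ w.map Sum.inr ∈ S} := by
  obtain ⟨M, c₀, hM⟩ := hS
  have hB := H _ _ (inNP_BQ M c)
  -- the length of the padded words
  set wl : ℕ → ℕ := fun n => 2 ^ (Nat.log 2 n + 2) ^ c with hwl
  have hqw : QB wl := QB.two_pow c
  have hq1 : QB (fun n => n + wl n) := QB.id.add hqw
  obtain ⟨k, hk⟩ : ∃ k, wb M ≤ 2 ^ k := ⟨wb M, Nat.lt_two_pow_self.le⟩
  set Sb : ℕ → ℕ := fun n => (Nat.log 2 (n + wl n) + 2) ^ c₀ with hSb
  have hqS : QB (fun n => 2 ^ Sb n) := hq1.two_pow_log c₀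
  have hqK : QB (fun n => bnd M (n + wl n) (Sb n)) := by
    have h1 : QB (fun n => (letI := M.finQ; Fintype.card M.Q) + (n + wl n) + 2 ^ Sb n +
        (2 ^ Sb n) ^ k + 3) :=
      ((((QB.const _).add hq1).add hqS).add (hqS.pow k)).add (QB.const 3)
    refine h1.of_le fun n => ?_
    simp only [bnd]
    have e1 : Sb n ≤ 2 ^ Sb n := Nat.lt_two_pow_self.le
    have e2 : wb M ^ Sb n ≤ (2 ^ Sb n) ^ k := by
      calc wb M ^ Sb n ≤ (2 ^ k) ^ Sb n := Nat.pow_le_pow_left hk _
        _ = (2 ^ Sb n) ^ k := by rw [← pow_mul, ← pow_mul, Nat.mul_comm]
    omega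
  obtain ⟨d, hd⟩ := hqK.add hq1
  set NN : ℕ → ℕ := fun n => 2 ^ (Nat.log 2 n + 2) ^ d with hNN
  have hun : ∀ n, n ≤ NN n := fun n => by
    have := hd n
    simp only at this
    simp only [hNN]
    omega
  -- the padded words are given by terms
  have hcm : InPL A {u | padU u (NN u.length) ∈ BQ M c} := by
    refine hB.comap (fun u => padU u (NN u.length)) NN (QB.two_pow d) (fun u => ?_) fun a => ?_
    · simp only [padU, List.length_append, List.length_map, List.length_replicate]
      have := hun u.length
      omega
    · cases a with
      | some a =>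
        refine (UP.sym a (UF.var 0)).congr fun u e => ?_
        unfold padU
        by_cases h : e 0 < u.length
        · rw [List.getElem?_append_left (by simpa using h), List.getElem?_map]
          cases u[e 0]? <;> simp
        · rw [List.getElem?_append_right (by simpa using h), List.getElem?_replicate,
            List.getElem?_eq_none (by omega)]
          split_ifs <;> simp
      | none =>
        have h1 : UP (fun (u : List A) e => u.length ≤ e 0 ∧
            (e 0 = 0 ∨ Nat.log 2 (e 0) < (Nat.log 2 u.length + 2) ^ d)) :=
          (UP.le UF.len (UF.var 0)).and ((UP.eq (UF.var 0) (UF.const 0)).or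
            (UP.lt (UF.log2 (UF.var 0)) (((UF.log2 UF.len).add (UF.const 2)).pow d)))
        refine h1.congr fun u e => ?_
        unfold padU
        have h2 : (e 0 = 0 ∨ Nat.log 2 (e 0) < (Nat.log 2 u.length + 2) ^ d) ↔
            e 0 < NN u.length := by
          simp only [hNN]
          constructor
          · rintro (h | h)
            · rw [h]
              positivity
            · rcases Nat.eq_zero_or_pos (e 0) with h0 | h0
              · rw [h0]
                positivity
              · exact (Nat.log_lt_iff_lt_pow (by norm_num) (by omega)).1 h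
          · intro h
            rcases Nat.eq_zero_or_pos (e 0) with h0 | h0
            · exact Or.inl h0
            · exact Or.inr ((Nat.log_lt_iff_lt_pow (by norm_num) (by omega)).2 h)
        rw [h2]
        by_cases h : e 0 < u.length
        · rw [List.getElem?_append_left (by simpa using h), List.getElem?_map]
          constructor
          · intro h3
            omega
          · intro h3
            exfalso
            rw [List.getElem?_eq_getElem h] at h3
            simp at h3
        · rw [List.getElem?_append_right (by simpa using h), List.getElem?_replicate,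
            List.length_map]
          constructor
          · rintro ⟨h3, h4⟩
            rw [if_pos (by omega)]
          · intro h3
            split_ifs at h3 with h4
            exact ⟨by omega, by omega⟩
  have key : ∀ u : List A, u ∈ {u | padU u (NN u.length) ∈ BQ M c} ↔
      ∃ w : List Bool, Nat.log 2 w.length < (Nat.log 2 u.length + 2) ^ c ∧
      u.map Sum.inl ++ w.map Sum.inr ∈ S := by
    intro u
    have hdu := hd u.length
    simp only at hdu
    constructor
    · intro h
      refine bq_sound M S (fun y => ?_) c u (NN u.length) (hun _) h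
      obtain ⟨t, b, h1, h2, h3⟩ := hM y
      exact ⟨t, b, _, h1, h2, h3⟩
    · rintro ⟨w, hw, hwS⟩
      obtain ⟨t, b, h1, h2, h3⟩ := hM (u.map Sum.inl ++ w.map Sum.inr)
      obtain rfl := h3.1 hwS
      have hwl' : w.length ≤ wl u.length := by
        simp only [hwl]
        rcases Nat.eq_zero_or_pos w.length with h0 | h0
        · rw [h0]
          exact Nat.zero_le _
        · exact ((Nat.log_lt_iff_lt_pow (by norm_num) (by omega)).1 hw).le
      have hlen : (u.map Sum.inl ++ w.map Sum.inr : List (A ⊕ Bool)).length =
          u.length + w.length := by simp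
      rw [hlen] at h2
      have hS2 : (Nat.log 2 (u.length + w.length) + 2) ^ c₀ ≤ Sb u.length := by
        simp only [hSb]
        exact Nat.pow_le_pow_left (Nat.add_le_add_right (Nat.log_mono_right (by omega)) 2) _
      have hNle : bnd M (u.length + wl u.length) (Sb u.length) + (u.length + wl u.length) ≤
          NN u.length := hdu
      refine bq_complete M c u w (NN u.length) (hun _) hw (by omega) t _ h1 h2 ?_
      have hwb : 0 < wb M := by unfold wb; omega
      have e2 : wb M ^ ((Nat.log 2 (u.length + w.length) + 2) ^ c₀) ≤ wb M ^ Sb u.length :=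
        Nat.pow_le_pow_right hwb hS2
      have e3 : bnd M (u.length + w.length) ((Nat.log 2 (u.length + w.length) + 2) ^ c₀) ≤
          bnd M (u.length + wl u.length) (Sb u.length) := by
        simp only [bnd]
        omega
      omega
  have hset : {u : List A | ∃ w : List Bool, Nat.log 2 w.length < (Nat.log 2 u.length + 2) ^ c ∧
      u.map Sum.inl ++ w.map Sum.inr ∈ S} = {u | padU u (NN u.length) ∈ BQ M c} := by
    ext u
    exact (key u).symm
  rw [hset]
  exact hcm

end Pool.Agent.BookAv
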