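import Pool.Agent.BookAv.Defs

/-!
# Certificates containing the computation of a Turing machine

A padded word `z` over `Option A` and a certificate in `{0,1}^*` are given as one word over
`Option A ⊕ Bool`. With `N = |z|`, the certificate gives a word `w` (its length is the number of
ones among the first `N` bits, its letters are among the next `N` bits) and the sequence of the
environments in the simulation of a machine on the input `(u, w)`, in unary.
-/

set_option autoImplicit false

namespace Pool.Agent.BookAv

open Pool.Agent.PT Pool.Agent.Book19 Pool.Agent.BookPL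

variable {A : Type}

/-- The length of the padded word. -/
def nN (Y : List (Option A ⊕ Bool)) : ℕ := Y.countP (fun a => a.isLeft)

/-- The length of the word before the padding. -/
def nU (Y : List (Option A ⊕ Bool)) : ℕ :=
  Y.countP (fun a => Sum.elim Option.isSome (fun _ => false) a)

/-- The bits of the certificate. -/
def bY (Y : List (Option A ⊕ Bool)) (p : ℕ) : Prop := Y[nN Y + p]? = some (Sum.inr true)

/-- The length of the word `w` given by the certificate. -/
noncomputable def lw (Y : List (Option A ⊕ Bool)) : ℕ := cnt (nN Y) (bY Y)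

/-- The letters of the word `u`. -/
def letter [Inhabited A] (Y : List (Option A ⊕ Bool)) (p : ℕ) : A :=
  match Y[p]? with
  | some (Sum.inl (some a)) => a
  | _ => default

open Classical in
/-- The letters of the pair `(u, w)`. -/
noncomputable def ltZ [Inhabited A] (Y : List (Option A ⊕ Bool)) (p : ℕ) : A ⊕ Bool :=
  if p < nU Y then Sum.inl (letter Y p) else Sum.inr (decide (bY Y (nN Y + (p - nU Y))))

/-- The pair `(u, w)`. -/
noncomputable def Zq [Inhabited A] (Y : List (Option A ⊕ Bool)) : List (A ⊕ Bool) :=
  (List.range (nU Y + lw Y)).map (ltZ Y)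

variable (M : OTM (A ⊕ Bool))

/-- The entry `j` of the environment number `i`. -/
noncomputable def dec (Y : List (Option A ⊕ Bool)) (i j : ℕ) : ℕ :=
  cnt (nN Y) (fun v => bY Y (2 * nN Y + ((i * nE M + j) * nN Y + v)))

/-- The environment number `i`. -/
noncomputable def EY (Y : List (Option A ⊕ Bool)) (i : ℕ) : ℕ → ℕ :=
  fun j => if j < nE M then dec M Y i j else 0

/-- The certificate is right. -/
def RY [Fintype A] [Inhabited A] (c : ℕ) (Y : List (Option A ⊕ Bool)) : Prop :=
  Nat.log 2 (lw Y) < (Nat.log 2 (nU Y) + 2) ^ c ∧
  ∃ T < nN Y ^ nE M + 1, (∀ j < nE M, EY M Y 0 j = e₀ j) ∧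
    (∀ i < T, EY M Y i 0 ≠ 0 ∧ ∀ j < nE M, EY M Y (i + 1) j = simF M Zq j Y (EY M Y i)) ∧
    EY M Y T 0 = 0 ∧ EY M Y T 1 ≠ 0

/-- The padded words for which there is a right certificate. -/
def BQ [Fintype A] [Inhabited A] (c : ℕ) : Set (List (Option A)) :=
  {z | ∃ w : List Bool, w.length ≤ 2 * z.length +
      (z.length ^ nE M + 1) * nE M * z.length ∧
    RY M c (z.map Sum.inl ++ w.map Sum.inr)}

/-- The word `u` padded to the length `N`. -/
def padU (u : List A) (N : ℕ) : List (Option A) :=
  u.map some ++ List.replicate (N - u.length) none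

end Pool.Agent.BookAv
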