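import Pool.Agent.BookAv.QEDefs

/-!
# The simulation of a Turing machine by a vector of functions
-/

set_option autoImplicit false

namespace Pool.Agent.BookAv

open Pool.Agent.PT Pool.Agent.Book19 Pool.Agent.BookPL

theorem sim_run {A B : Type} [Fintype A] (M : OTM A) (Z : List B → List A) (Y : List B)
    (t S : ℕ) (b : Bool) (hg : M.Gives (Z Y) t b) (hs : M.Space (Z Y) t S) :
    (∀ i ≤ t, (vstep (nE M) (simF M Z) Y)^[i] e₀ 0 ≠ 0) ∧
    (vstep (nE M) (simF M Z) Y)^[t + 1] e₀ 0 = 0 ∧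
    ((vstep (nE M) (simF M Z) Y)^[t + 1] e₀ 1 ≠ 0 ↔ b = true) ∧
    (∀ i ≤ t + 1, ∀ j, (vstep (nE M) (simF M Z) Y)^[i] e₀ j ≤ bnd M (Z Y).length S) := by
  have hpos : ∀ s, (M.conf (Z Y) s).pos ≤ (Z Y).length + 1 := conf_pos_le M (Z Y)
  have hit : ∀ i ≤ t, (vstep (nE M) (simF M Z) Y)^[i] e₀ = encE M S (M.conf (Z Y) i) := by
    intro i
    induction i with
    | zero => intro _; exact (encE_init M S).symm
    | succ i ih =>
      intro hi
      rw [Function.iterate_succ_apply', ih (by omega)]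
      have e1 : M.conf (Z Y) (i + 1) = M.step (Z Y) (M.conf (Z Y) i) := by
        unfold OTM.conf
        rw [Function.iterate_succ_apply']
      rw [e1]
      refine vstep_enc M Z Y S _ (hs i (by omega)) ?_ (hpos i) (hg.2 i (by omega))
      rw [← e1]
      exact hs (i + 1) hi
  have hlt : ∀ i ≤ t, ∀ j, encE M S (M.conf (Z Y) i) j < bnd M (Z Y).length S := fun i hi j =>
    encE_lt M (Z Y) S _ (hs i hi) (hpos i) j
  obtain ⟨o1, o2, o3⟩ := vstep_out M Z Y S (M.conf (Z Y) t) (hs t le_rfl) (hpos t) b hg.1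
  have hlast : (vstep (nE M) (simF M Z) Y)^[t + 1] e₀ =
      vstep (nE M) (simF M Z) Y (encE M S (M.conf (Z Y) t)) := by
    rw [Function.iterate_succ_apply', hit t le_rfl]
  refine ⟨fun i hi => ?_, ?_, ?_, fun i hi j => ?_⟩
  · rw [hit i hi]
    simp [encE]
  · rw [hlast, o1]
  · rw [hlast, o2]
    cases b <;> simp
  · rcases Nat.lt_or_ge i (t + 1) with h | h
    · rw [hit i (by omega)]
      exact (hlt i (by omega) j).le
    · obtain rfl : i = t + 1 := by omega
      rw [hlast]
      have h1 := o3 j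
      have h2 := hlt t le_rfl j
      have h3 : 3 ≤ bnd M (Z Y).length S := by
        unfold bnd
        omega
      omega

end Pool.Agent.BookAv
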