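import Pool.Agent.BookAv.QEDefs
import Pool.Agent.BookPL.SimUF

/-!
# The right certificates are given by terms
-/

set_option autoImplicit false

namespace Pool.Agent.BookAv

open Pool.Agent.PT Pool.Agent.Book19 Pool.Agent.BookPL

variable {A : Type} [Fintype A] [Inhabited A] (M : OTM (A ⊕ Bool))

omit [Inhabited A] in
private theorem uf_nN : UF (fun (Y : List (Option A ⊕ Bool)) _ => nN Y) := UF.countP _

omit [Inhabited A] in
private theorem uf_nU : UF (fun (Y : List (Option A ⊕ Bool)) _ => nU Y) := UF.countP _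

omit [Inhabited A] in
private theorem up_bY {f : List (Option A ⊕ Bool) → (ℕ → ℕ) → ℕ} (hf : UF f) :
    UP (fun Y e => bY Y (f Y e)) :=
  (UP.sym (Sum.inr true) (uf_nN.add hf)).congr fun _ _ => Iff.rfl

private theorem uf_cnt {Γ : Type} {b : List Γ → (ℕ → ℕ) → ℕ} {P : List Γ → (ℕ → ℕ) → ℕ → Prop}
    (hb : UF b) (hP : UP (fun x e => P x (fun i => e (i + 1)) (e 0))) :
    UF (fun x e => cnt (b x e) (P x e)) := by
  unfold cnt
  exact UF.sum (f := fun x e v => @ite ℕ (P x e v) (Classical.propDecidable _) 1 0) hb hP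

omit [Inhabited A] in
private theorem uf_lw : UF (fun (Y : List (Option A ⊕ Bool)) _ => lw Y) :=
  uf_cnt (P := fun Y _ v => bY Y v) uf_nN (up_bY (UF.var 0))

private theorem up_letter (a : A) :
    UP (fun (Y : List (Option A ⊕ Bool)) e => letter Y (e 0) = a) := by
  have h1 : UP (fun (Y : List (Option A ⊕ Bool)) e => Y[e 0]? = some (Sum.inl (some a))) :=
    UP.sym _ (UF.var 0)
  have h2 : UP (fun (Y : List (Option A ⊕ Bool)) e =>
      ∃ b : A, Y[e 0]? = some (Sum.inl (some b))) := UP.fex (fun b => UP.sym _ (UF.var 0))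
  refine (h1.or (h2.not.and (UP.const ((default : A) = a)))).congr fun Y e => ?_
  unfold letter
  rcases h : Y[e 0]? with _ | ((_ | b) | b)
  · simp
  · simp
  · simp
  · simp

private theorem up_ltZ (l : A ⊕ Bool) :
    UP (fun (Y : List (Option A ⊕ Bool)) e => ltZ Y (e 0) = l) := by
  have h0 : UP (fun (Y : List (Option A ⊕ Bool)) e => e 0 < nU Y) := UP.lt (UF.var 0) uf_nU
  have h1 : UP (fun (Y : List (Option A ⊕ Bool)) e => bY Y (nN Y + (e 0 - nU Y))) :=
    up_bY (uf_nN.add ((UF.var 0).sub uf_nU))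
  rcases l with a | b
  · refine (h0.and (up_letter a)).congr fun Y e => ?_
    unfold ltZ
    by_cases h : e 0 < nU Y <;> simp [h]
  · cases b with
    | true =>
      refine (h0.not.and h1).congr fun Y e => ?_
      unfold ltZ
      by_cases h : e 0 < nU Y <;> simp [h]
    | false =>
      refine (h0.not.and h1.not).congr fun Y e => ?_
      unfold ltZ
      by_cases h : e 0 < nU Y <;> simp [h]

private theorem up_Zq (l : A ⊕ Bool) :
    UP (fun (Y : List (Option A ⊕ Bool)) e => (Zq Y)[e 0]? = some l) := by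
  refine ((UP.lt (UF.var 0) (uf_nU.add uf_lw)).and (up_ltZ l)).congr fun Y e => ?_
  unfold Zq
  rw [List.getElem?_map]
  by_cases h : e 0 < nU Y + lw Y
  · rw [List.getElem?_range h]
    simp [h]
  · rw [List.getElem?_eq_none (by simpa using h)]
    simp [h]

omit [Inhabited A] in
private theorem uf_EY {f : List (Option A ⊕ Bool) → (ℕ → ℕ) → ℕ} (hf : UF f) (j : ℕ) :
    UF (fun Y e => EY M Y (f Y e) j) := by
  by_cases hj : j < nE M
  · have h1 : UF (fun (Y : List (Option A ⊕ Bool)) e => dec M Y (e 0) j) := by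
      unfold dec
      exact uf_cnt (P := fun Y e v => bY Y (2 * nN Y + ((e 0 * nE M + j) * nN Y + v))) uf_nN
        (up_bY (((UF.const 2).mul uf_nN).add
          (((((UF.var 1).mul (UF.const (nE M))).add (UF.const j)).mul uf_nN).add (UF.var 0))))
    refine (UF.comp₁ (f := fun Y i => dec M Y i j) h1 hf).congr fun Y e => ?_
    simp [EY, hj]
  · exact (UF.const 0).congr fun Y e => by simp [EY, hj]

private theorem uf_sim {f : List (Option A ⊕ Bool) → (ℕ → ℕ) → ℕ} (hf : UF f) (j : ℕ) :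
    UF (fun Y e => simF M Zq j Y (EY M Y (f Y e))) :=
  UF.subst (uf_simF M Zq up_Zq j) (fun j' Y e => EY M Y (f Y e) j') fun j' => uf_EY M hf j'

omit [Fintype A] [Inhabited A] in
private theorem up_metaball {P : ℕ → List (Option A ⊕ Bool) → (ℕ → ℕ) → Prop} (n : ℕ)
    (hP : ∀ j, UP (P j)) : UP (fun Y e => ∀ j < n, P j Y e) := by
  refine (UP.fall (P := fun (j : Fin n) Y e => P j Y e) fun j => hP j).congr fun Y e => ?_
  exact ⟨fun h j hj => h ⟨j, hj⟩, fun h j => h j j.2⟩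

theorem up_RY (c : ℕ) : UP (fun Y _ => RY M c Y) := by
  have h1 : UP (fun (Y : List (Option A ⊕ Bool)) _ =>
      Nat.log 2 (lw Y) < (Nat.log 2 (nU Y) + 2) ^ c) :=
    UP.lt (UF.log2 uf_lw) (((UF.log2 uf_nU).add (UF.const 2)).pow c)
  have h2 : UP (fun (Y : List (Option A ⊕ Bool)) _ => ∀ j < nE M, EY M Y 0 j = e₀ j) :=
    up_metaball (nE M) fun j => UP.eq (uf_EY M (UF.const 0) j) (UF.const (e₀ j))
  have h3 : UP (fun (Y : List (Option A ⊕ Bool)) e => ∀ i < e 0, EY M Y i 0 ≠ 0 ∧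
      ∀ j < nE M, EY M Y (i + 1) j = simF M Zq j Y (EY M Y i)) :=
    UP.ball (P := fun Y _ i => EY M Y i 0 ≠ 0 ∧
      ∀ j < nE M, EY M Y (i + 1) j = simF M Zq j Y (EY M Y i)) (UF.var 0)
      ((UP.ne (uf_EY M (UF.var 0) 0) (UF.const 0)).and (up_metaball (nE M) fun j =>
        UP.eq (uf_EY M ((UF.var 0).add (UF.const 1)) j) (uf_sim M (UF.var 0) j)))
  have h4 : UP (fun (Y : List (Option A ⊕ Bool)) e => EY M Y (e 0) 0 = 0 ∧ EY M Y (e 0) 1 ≠ 0) :=
    (UP.eq (uf_EY M (UF.var 0) 0) (UF.const 0)).and (UP.ne (uf_EY M (UF.var 0) 1) (UF.const 0))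
  exact h1.and (UP.bex (P := fun Y _ T => (∀ j < nE M, EY M Y 0 j = e₀ j) ∧
    (∀ i < T, EY M Y i 0 ≠ 0 ∧ ∀ j < nE M, EY M Y (i + 1) j = simF M Zq j Y (EY M Y i)) ∧
    EY M Y T 0 = 0 ∧ EY M Y T 1 ≠ 0) ((uf_nN.pow (nE M)).add (UF.const 1))
    (h2.and (h3.and h4)))

theorem inNP_BQ (c : ℕ) : InNPc (Option A) (BQ M c) := by
  classical
  refine ⟨2 * Polynomial.X + (Polynomial.X ^ nE M + 1) * Polynomial.C (nE M) * Polynomial.X,
    fun q => decide (RY M c (q.1.map Sum.inl ++ q.2.map Sum.inr)), ?_, fun z => ?_⟩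
  · refine polyTime_bool (P := fun Y => RY M c Y) _ (up_RY M c) _ fun q => ?_
    rw [decide_eq_true_iff]
    exact Iff.rfl
  · simp [BQ]

end Pool.Agent.BookAv
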