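import Pool.Agent.BookAv.Defs

/-!
# The kernel as a predicate on words
-/

set_option autoImplicit false

namespace Pool.Agent.BookAv

open Pool.Agent.PT Pool.Agent.Book19 Pool.Agent.BookPL

/-- The alphabet of the words coding five words. -/
abbrev A4 : Type := (((Bool ⊕ Bool) ⊕ Bool) ⊕ Bool) ⊕ Bool

/-- The number of the word a letter belongs to. -/
def tg : A4 → ℕ
  | Sum.inl (Sum.inl (Sum.inl (Sum.inl _))) => 0
  | Sum.inl (Sum.inl (Sum.inl (Sum.inr _))) => 1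
  | Sum.inl (Sum.inl (Sum.inr _)) => 2
  | Sum.inl (Sum.inr _) => 3
  | Sum.inr _ => 4

/-- The letter itself. -/
def bb : A4 → Bool
  | Sum.inl (Sum.inl (Sum.inl (Sum.inl b))) => b
  | Sum.inl (Sum.inl (Sum.inl (Sum.inr b))) => b
  | Sum.inl (Sum.inl (Sum.inr b)) => b
  | Sum.inl (Sum.inr b) => b
  | Sum.inr b => b

/-- Five words coded by one word. -/
def enc4 (x t w₂ w₃ w₄ : List Bool) : List A4 :=
  ((((x.map Sum.inl ++ t.map Sum.inr).map Sum.inl ++ w₂.map Sum.inr).map Sum.inl ++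
    w₃.map Sum.inr).map Sum.inl ++ w₄.map Sum.inr)

/-- The length of the word number `i`. -/
def sc (i : ℕ) (Y : List A4) : ℕ := Y.countP (fun a => tg a = i)

/-- The bits of the word number `i`. -/
def bit (i : ℕ) (Y : List A4) (p : ℕ) : Prop :=
  p < sc i Y ∧ ∃ a, Y[∑ j ∈ Finset.range i, sc j Y + p]? = some a ∧ bb a = true

/-- `2 ^ e` (if `1 ≤ e` and `2 ^ e ≤ |Y|`). -/
noncomputable def pw (Y : List A4) (e : ℕ) : ℕ := cnt Y.length (fun i => Nat.log 2 i < e)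

/-- The kernel on words. -/
def BaseY (k : ℕ) (Y : List A4) : Prop :=
  (Nat.log 2 (sc 0 Y) + 2) ^ (k + 4) ≤ Nat.log 2 (sc 1 Y) ∧
  base (sc 0 Y) (pw Y (Nat.log 2 (sc 0 Y) ^ k)) (Nat.log 2 (sc 0 Y) ^ (k + 2))
    (pw Y (Nat.log 2 (sc 0 Y) ^ (k + 2))) (bit 0 Y) (bit 1 Y) (bit 2 Y)
    (fun p => bit 2 Y (pw Y (Nat.log 2 (sc 0 Y) ^ (k + 2)) + p)) (bit 3 Y)
    (fun p => bit 3 Y (pw Y (Nat.log 2 (sc 0 Y) ^ k) + p)) (bit 4 Y)

end Pool.Agent.BookAv
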